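import Pool.Agent.Q64.HS.Fourier

/-! # From a solution in the half-space to an admissible pair -/

namespace Pool.Agent.Q64.HS

open MeasureTheory Set Filter Topology
open scoped ContDiff Convolution

variable {n : ℕ}

/-! ### differentiation in `t` under an average -/

lemma hasDerivAt_cvt {φ : E n → ℝ} (hφ : TF φ) {F F' : E n → ℝ → ℝ} (x : E n)
    (hF' : ContinuousOn (fun p : E n × ℝ => F' p.1 p.2) {p | 0 < p.2})
    (hd : ∀ y t, 0 < t → HasDerivAt (F y) (F' y t) t)
    (hFc : ∀ t, 0 < t → Continuous fun y => F y t) {t0 : ℝ} (ht0 : 0 < t0) :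
    HasDerivAt (fun t => cv φ (fun y => F y t) x) (cv φ (fun y => F' y t0) x) t0 := by
  -- bound on a compact set
  have hcomp : IsCompact (tsupport φ ×ˢ Icc (t0 / 2) (2 * t0)) :=
    hφ.cpt.isCompact.prod isCompact_Icc
  have hcont : ContinuousOn (fun p : E n × ℝ => φ p.1 * F' (x + p.1) p.2)
      (tsupport φ ×ˢ Icc (t0 / 2) (2 * t0)) := by
    refine (hφ.cont.comp continuous_fst).continuousOn.mul ?_
    refine hF'.comp (f := fun p : E n × ℝ => (x + p.1, p.2)) (by fun_prop) ?_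
    rintro ⟨y, t⟩ ⟨_, ht⟩
    simp only [mem_Icc, mem_ofPred_eq] at ht ⊢
    linarith [ht.1]
  obtain ⟨B, hB⟩ := hcomp.exists_bound_of_continuousOn hcont
  have hslice : ∀ t, 0 < t → Continuous fun y => F' y t := by
    intro t ht
    rw [← continuousOn_univ]
    exact hF'.comp (f := fun y : E n => (y, t)) (by fun_prop) (fun y _ => ht)
  refine (hasDerivAt_integral_of_dominated_loc_of_deriv_le
    (F := fun t y => φ y * F (x + y) t) (F' := fun t y => φ y * F' (x + y) t)
    (bound := (tsupport φ).indicator fun _ => B) (s := Ioo (t0 / 2) (2 * t0))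
    (Ioo_mem_nhds (by linarith) (by linarith)) ?_ ?_ ?_ ?_ ?_ ?_).2
  · filter_upwards [lt_mem_nhds ht0] with t ht
    exact (cv_int hφ (hFc t ht) x).aestronglyMeasurable
  · exact cv_int hφ (hFc t0 ht0) x
  · exact (cv_int hφ (hslice t0 ht0) x).aestronglyMeasurable
  · refine Eventually.of_forall fun y t ht => ?_
    by_cases hy : y ∈ tsupport φ
    · rw [indicator_of_mem hy]
      exact hB (y, t) ⟨hy, ht.1.le, ht.2.le⟩
    · rw [indicator_of_notMem hy, image_eq_zero_of_notMem_tsupport hy, zero_mul, norm_zero]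
  · rw [integrable_indicator_iff (isClosed_tsupport φ).measurableSet]
    refine integrableOn_const ?_
    exact hφ.cpt.isCompact.measure_lt_top.ne
  · refine Eventually.of_forall fun y t ht => ?_
    exact (hd (x + y) t (by linarith [ht.1])).const_mul (φ y)

/-- affine function from vanishing second derivative -/
lemma affine_of {d e : ℝ → ℝ} {T : ℝ} (hT : 1 < T) (hd : ContinuousOn d (Icc 0 T))
    (h1 : ∀ t ∈ Ioo 0 T, HasDerivAt d (e t) t) (h2 : ∀ t ∈ Ioo 0 T, HasDerivAt e 0 t)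
    (h0 : d 0 = 0) : ∀ t ∈ Icc 0 T, d t = t * d 1 := by
  have he : ∀ s ∈ Ioo 0 T, ∀ t ∈ Ioo 0 T, e s = e t := by
    intro s hs t ht
    have := (convex_Ioo 0 T).norm_image_sub_le_of_norm_hasDerivWithin_le (f := e)
      (f' := fun _ => 0) (C := 0) (fun r hr => (h2 r hr).hasDerivWithinAt) (fun r _ => by simp)
      ht hs
    rw [zero_mul] at this
    exact sub_eq_zero.1 (norm_le_zero_iff.1 this)
  have h3 : ∀ t, 0 < t → t ≤ T → d t = t * e (1/2) := by
    intro t ht0 htT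
    obtain ⟨c, hc, h4⟩ := exists_hasDerivAt_eq_slope d e ht0
      (hd.mono (Icc_subset_Icc_right htT)) (fun s hs => h1 s ⟨hs.1, hs.2.trans_le htT⟩)
    have h5 := he c ⟨hc.1, hc.2.trans_le htT⟩ (1/2) ⟨by norm_num, by linarith⟩
    rw [h5, h0, sub_zero, sub_zero, eq_div_iff ht0.ne'] at h4
    linarith
  intro t ht
  rcases ht.1.eq_or_lt with h | h
  · rw [← h, h0, zero_mul]
  · rw [h3 t h ht.2, h3 1 one_pos hT.le, one_mul]

/-! ### the half-space -/

abbrev X (n : ℕ) := EuclideanSpace ℝ (Fin (n + 1))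

noncomputable def incL (n : ℕ) : E n →ₗ[ℝ] X n where
  toFun x := WithLp.toLp 2 (Fin.snoc (fun i => x i) 0 : Fin (n + 1) → ℝ)
  map_add' x y := by
    ext j
    refine Fin.lastCases ?_ (fun i => ?_) j <;> simp
  map_smul' c x := by
    ext j
    refine Fin.lastCases ?_ (fun i => ?_) j <;> simp

noncomputable def inc (n : ℕ) : E n →L[ℝ] X n := LinearMap.toContinuousLinearMap (incL n)

noncomputable def eN (n : ℕ) : X n := EuclideanSpace.single (Fin.last n) 1

noncomputable def pt (x : E n) (t : ℝ) : X n := inc n x + t • eN n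

lemma pt_last (x : E n) (t : ℝ) : pt x t (Fin.last n) = t := by
  simp [pt, inc, incL, eN]

lemma pt_cast (x : E n) (t : ℝ) (i : Fin n) : pt x t (Fin.castSucc i) = x i := by
  simp [pt, inc, incL, eN, (Fin.castSucc_lt_last i).ne]

lemma exists_pt (p : X n) : ∃ x : E n, p = pt x (p (Fin.last n)) := by
  refine ⟨WithLp.toLp 2 (fun i => p (Fin.castSucc i)), ?_⟩
  ext j
  refine Fin.lastCases ?_ (fun i => ?_) j
  · rw [pt_last]
  · rw [pt_cast]

lemma inc_ee (i : Fin n) : inc n (ee i) = EuclideanSpace.single (Fin.castSucc i) (1:ℝ) := by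
  ext j
  refine Fin.lastCases ?_ (fun k => ?_) j
  · simp [inc, incL, (Fin.castSucc_lt_last i).ne']
  · simp only [inc, incL, ee]
    simp [Fin.castSucc_inj]

lemma pt_cont : Continuous (fun p : E n × ℝ => pt p.1 p.2) := by
  unfold pt; fun_prop

def HSopen (n : ℕ) : Set (X n) := {p | 0 < p (Fin.last n)}

lemma isOpen_HS : IsOpen (HSopen n) :=
  isOpen_lt continuous_const (by fun_prop)

lemma pt_mem (x : E n) {t : ℝ} (ht : 0 < t) : pt x t ∈ HSopen n := by
  show 0 < pt x t (Fin.last n); rw [pt_last]; exact ht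

/-- hypotheses on `u` -/
structure Sol (u : X n → ℝ) : Prop where
  cont : ContinuousOn u {p | 0 ≤ p (Fin.last n)}
  c2 : ContDiffOn ℝ 2 u {p | 0 < p (Fin.last n)}
  eq : ∀ p, 0 < p (Fin.last n) → -(Laplacian.laplacian u p) = u p - 1
  bd : ∀ p, p (Fin.last n) = 0 → u p = 0
  H : ∀ M : ℝ, 0 < M → ∃ C : ℝ, 0 < C ∧ ∀ p : X n, 0 ≤ p (Fin.last n) →
    p (Fin.last n) ≤ M → 0 ≤ u p ∧ u p ≤ C

variable {u : X n → ℝ}

lemma Sol.cda (S : Sol u) {p : X n} (hp : p ∈ HSopen n) : ContDiffAt ℝ 2 u p :=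
  S.c2.contDiffAt (isOpen_HS.mem_nhds hp)

lemma Sol.d1 (S : Sol u) {p : X n} (hp : p ∈ HSopen n) : HasFDerivAt u (fderiv ℝ u p) p :=
  ((S.cda hp).differentiableAt (by norm_num)).hasFDerivAt

lemma Sol.cf (S : Sol u) : ContDiffOn ℝ 1 (fderiv ℝ u) (HSopen n) :=
  S.c2.fderiv_of_isOpen isOpen_HS (by norm_num)

lemma Sol.d2 (S : Sol u) {p : X n} (hp : p ∈ HSopen n) :
    HasFDerivAt (fderiv ℝ u) (fderiv ℝ (fderiv ℝ u) p) p :=
  ((S.cf.contDiffAt (isOpen_HS.mem_nhds hp)).differentiableAt (by norm_num)).hasFDerivAt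

lemma Sol.cff (S : Sol u) : ContinuousOn (fderiv ℝ (fderiv ℝ u)) (HSopen n) :=
  S.cf.continuousOn_fderiv_of_isOpen isOpen_HS (by norm_num)

lemma hasDerivAt_pt (x : E n) (t : ℝ) : HasDerivAt (fun t => pt x t) (eN n) t := by
  have := ((hasDerivAt_id t).smul_const (eN n)).const_add (inc n x)
  simpa [pt] using this

lemma hasFDerivAt_pt (x : E n) (t : ℝ) : HasFDerivAt (fun x : E n => pt x t) (inc n) x :=
  ((inc n).hasFDerivAt).add_const _

lemma Sol.dt1 (S : Sol u) (x : E n) {t : ℝ} (ht : 0 < t) :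
    HasDerivAt (fun t => u (pt x t)) (fderiv ℝ u (pt x t) (eN n)) t :=
  (S.d1 (pt_mem x ht)).comp_hasDerivAt t (hasDerivAt_pt x t)

lemma Sol.dt2 (S : Sol u) (x : E n) {t : ℝ} (ht : 0 < t) :
    HasDerivAt (fun t => fderiv ℝ u (pt x t) (eN n))
      (fderiv ℝ (fderiv ℝ u) (pt x t) (eN n) (eN n)) t := by
  have h1 := (S.d2 (pt_mem x ht)).comp_hasDerivAt t (hasDerivAt_pt x t)
  exact h1.clm_apply (hasDerivAt_const t (eN n)) |>.congr_deriv (by simp)

lemma Sol.lap_slice (S : Sol u) (x : E n) {t : ℝ} (ht : 0 < t) :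
    lap (fun x => u (pt x t)) x = ∑ i : Fin n,
      fderiv ℝ (fderiv ℝ u) (pt x t) (inc n (ee i)) (inc n (ee i)) := by
  unfold lap
  refine Finset.sum_congr rfl fun i _ => ?_
  have h1 : pd i (fun x => u (pt x t)) = fun x => fderiv ℝ u (pt x t) (inc n (ee i)) := by
    ext y
    have := (S.d1 (pt_mem y ht)).comp y (hasFDerivAt_pt y t)
    rw [pd]
    have h2 : fderiv ℝ (fun x => u (pt x t)) y = (fderiv ℝ u (pt y t)).comp (inc n) := this.fderiv
    rw [h2]; rfl
  rw [h1]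
  have h3 := (S.d2 (pt_mem x ht)).comp x (hasFDerivAt_pt x t)
  have h4 := h3.clm_apply (hasFDerivAt_const (inc n (ee i)) x)
  have h5 : fderiv ℝ (fun x => fderiv ℝ u (pt x t) (inc n (ee i))) x = _ := h4.fderiv
  rw [pd, h5]
  simp

lemma Sol.slice_c2 (S : Sol u) {t : ℝ} (ht : 0 < t) : ContDiff ℝ 2 (fun x : E n => u (pt x t)) := by
  rw [contDiff_iff_contDiffAt]
  intro x
  have h1 : ContDiffAt ℝ 2 (fun x : E n => pt x t) x := by
    unfold pt
    exact ((inc n).contDiff.contDiffAt).add contDiffAt_const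
  exact (S.cda (pt_mem x ht)).comp x h1

lemma Sol.pde (S : Sol u) (x : E n) {t : ℝ} (ht : 0 < t) :
    fderiv ℝ (fderiv ℝ u) (pt x t) (eN n) (eN n)
      = 1 - u (pt x t) - lap (fun x => u (pt x t)) x := by
  have h1 := S.eq (pt x t) (by rw [pt_last]; exact ht)
  have h2 : Laplacian.laplacian u (pt x t) = ∑ j : Fin (n + 1),
      fderiv ℝ (fderiv ℝ u) (pt x t) (EuclideanSpace.single j 1) (EuclideanSpace.single j 1) := by
    rw [InnerProductSpace.laplacian_eq_iteratedFDeriv_orthonormalBasis u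
      (EuclideanSpace.basisFun (Fin (n + 1)) ℝ)]
    refine Finset.sum_congr rfl fun j _ => ?_
    rw [iteratedFDeriv_two_apply]
    simp
  rw [h2, Fin.sum_univ_castSucc] at h1
  rw [S.lap_slice x ht]
  simp only [inc_ee, eN]
  linarith

end Pool.Agent.Q64.HS
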