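import Mathlib

/-! # Averages with smooth compactly supported kernels on `ℝⁿ` -/

namespace Pool.Agent.Q64.HS

open MeasureTheory Set Filter Topology
open scoped ContDiff Convolution

abbrev E (n : ℕ) := EuclideanSpace ℝ (Fin n)

variable {n : ℕ}

/-- standard basis vectors -/
noncomputable def ee (i : Fin n) : E n := EuclideanSpace.single i 1

noncomputable def cv (φ f : E n → ℝ) (x : E n) : ℝ := ∫ y, φ y * f (x + y)

noncomputable def pd (i : Fin n) (φ : E n → ℝ) (x : E n) : ℝ := fderiv ℝ φ x (ee i)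

noncomputable def lap (φ : E n → ℝ) (x : E n) : ℝ := ∑ i, pd i (pd i φ) x

structure TF (φ : E n → ℝ) : Prop where
  smooth : ContDiff ℝ ∞ φ
  cpt : HasCompactSupport φ

lemma TF.cont {φ : E n → ℝ} (h : TF φ) : Continuous φ := h.smooth.continuous

lemma TF.pd {φ : E n → ℝ} (h : TF φ) (i : Fin n) : TF (pd i φ) := by
  refine ⟨?_, ?_⟩
  · have := h.smooth.fderiv_right (m := ∞) (by simp)
    exact this.clm_apply contDiff_const
  · have := h.cpt.fderiv ℝ
    refine this.comp_left (g := fun L : E n →L[ℝ] ℝ => L (ee i)) (by simp)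

lemma TF.zero : TF (0 : E n → ℝ) := ⟨contDiff_const, HasCompactSupport.zero⟩

lemma TF.add {φ ψ : E n → ℝ} (h : TF φ) (k : TF ψ) : TF (φ + ψ) :=
  ⟨h.smooth.add k.smooth, h.cpt.add k.cpt⟩

lemma TF.sum {ι : Type*} (s : Finset ι) {φ : ι → E n → ℝ} (h : ∀ i ∈ s, TF (φ i)) :
    TF (∑ i ∈ s, φ i) := by
  classical
  induction s using Finset.induction_on with
  | empty => simpa using TF.zero
  | insert a s ha ih =>
    rw [Finset.sum_insert ha]
    exact (h a (by simp)).add (ih fun i hi => h i (by simp [hi]))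

lemma lap_eq (φ : E n → ℝ) : lap φ = ∑ i, HS.pd i (HS.pd i φ) := by
  ext x; simp [lap, Finset.sum_apply]

lemma TF.lap {φ : E n → ℝ} (h : TF φ) : TF (lap φ) := by
  rw [lap_eq]; exact TF.sum _ fun i _ => (h.pd i).pd i

lemma TF.integrable {φ : E n → ℝ} (h : TF φ) : Integrable φ :=
  h.cont.integrable_of_hasCompactSupport h.cpt

lemma cv_int {φ f : E n → ℝ} (hφ : TF φ) (hf : Continuous f) (x : E n) :
    Integrable (fun y => φ y * f (x + y)) := by
  refine Continuous.integrable_of_hasCompactSupport (hφ.cont.mul (by fun_prop)) ?_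
  exact hφ.cpt.mul_right

lemma cv_eq (φ f : E n → ℝ) (x : E n) : cv φ f x = ∫ y, φ (y - x) * f y := by
  rw [cv, ← integral_add_left_eq_self (μ := volume) (fun y => φ (y - x) * f y) x]
  congr 1; ext y; simp

lemma cv_add {φ f g : E n → ℝ} (hφ : TF φ) (hf : Continuous f) (hg : Continuous g) (x : E n) :
    cv φ (fun y => f y + g y) x = cv φ f x + cv φ g x := by
  simp only [cv]
  rw [← integral_add (cv_int hφ hf x) (cv_int hφ hg x)]
  congr 1; ext y; ring

lemma cv_sub {φ f g : E n → ℝ} (hφ : TF φ) (hf : Continuous f) (hg : Continuous g) (x : E n) :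
    cv φ (fun y => f y - g y) x = cv φ f x - cv φ g x := by
  simp only [cv]
  rw [← integral_sub (cv_int hφ hf x) (cv_int hφ hg x)]
  congr 1; ext y; ring

lemma cv_smul (φ f : E n → ℝ) (c : ℝ) (x : E n) :
    cv φ (fun y => c * f y) x = c * cv φ f x := by
  simp only [cv]
  rw [← integral_const_mul]
  congr 1; ext y; ring

lemma cv_sum_left {ι : Type*} (s : Finset ι) {φ : ι → E n → ℝ} (h : ∀ i ∈ s, TF (φ i))
    {f : E n → ℝ} (hf : Continuous f) (x : E n) :
    cv (∑ i ∈ s, φ i) f x = ∑ i ∈ s, cv (φ i) f x := by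
  simp only [cv]
  rw [← integral_finsetSum _ fun i hi => cv_int (h i hi) hf x]
  congr 1; ext y; simp [Finset.sum_apply, Finset.sum_mul]

lemma cv_const {φ : E n → ℝ} (h1 : ∫ y, φ y = 1) (c : ℝ) (x : E n) :
    cv φ (fun _ => c) x = c := by
  simp only [cv]; rw [integral_mul_const, h1, one_mul]

lemma cv_nonneg {φ f : E n → ℝ} (h0 : ∀ y, 0 ≤ φ y) (hf : ∀ y, 0 ≤ f y) (x : E n) :
    0 ≤ cv φ f x := integral_nonneg fun y => mul_nonneg (h0 y) (hf _)

lemma cv_bound {φ f : E n → ℝ} (hφ : TF φ) {C : ℝ} (hC : ∀ y, |f y| ≤ C) (x : E n) :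
    |cv φ f x| ≤ (∫ y, |φ y|) * C := by
  have h1 : |∫ y, φ y * f (x + y)| ≤ ∫ y, ‖φ y * f (x + y)‖ := by
    rw [← Real.norm_eq_abs]; exact norm_integral_le_integral_norm _
  rw [cv]
  refine h1.trans ?_
  rw [← integral_mul_const]
  refine integral_mono_of_nonneg ?_ ?_ ?_
  · exact Eventually.of_forall fun y => norm_nonneg _
  · exact (hφ.integrable.abs).mul_const _
  · refine Eventually.of_forall fun y => ?_
    simp only [Real.norm_eq_abs, abs_mul]
    exact mul_le_mul_of_nonneg_left (hC _) (abs_nonneg _)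

/-- joint continuity in a parameter -/
lemma cv_cont_param {X : Type*} [TopologicalSpace X] [FirstCountableTopology X]
    [LocallyCompactSpace X]
    {φ : E n → ℝ} (hφ : TF φ) {f : X → E n → ℝ}
    (hf : Continuous (fun p : X × E n => f p.1 p.2)) :
    Continuous (fun p : X × E n => cv φ (f p.1) p.2) := by
  have h1 : ∀ p : X × E n, cv φ (f p.1) p.2
      = ∫ y in tsupport φ, φ y * f p.1 (p.2 + y) := by
    intro p
    rw [cv, setIntegral_eq_integral_of_forall_compl_eq_zero]
    intro y hy
    rw [image_eq_zero_of_notMem_tsupport hy, zero_mul]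
  simp_rw [h1]
  refine continuous_parametric_integral_of_continuous
    (f := fun (p : X × E n) y => φ y * f p.1 (p.2 + y)) ?_ hφ.cpt
  have : Continuous (fun q : (X × E n) × E n => f q.1.1 (q.1.2 + q.2)) :=
    hf.comp (f := fun q : (X × E n) × E n => (q.1.1, q.1.2 + q.2)) (by fun_prop)
  exact (hφ.cont.comp continuous_snd).mul this

lemma cv_cont {φ : E n → ℝ} (hφ : TF φ) {f : E n → ℝ} (hf : Continuous f) :
    Continuous (cv φ f) := by
  have := cv_cont_param (X := Unit) hφ (f := fun _ => f) (hf.comp continuous_snd)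
  exact this.comp (f := fun x : E n => ((), x)) (by fun_prop)

lemma cv_comm {φ ψ : E n → ℝ} (hφ : TF φ) (hψ : TF ψ) {f : E n → ℝ} (hf : Continuous f)
    (x : E n) : cv φ (cv ψ f) x = cv ψ (cv φ f) x := by
  simp only [cv]
  have h1 : ∀ y : E n, φ y * ∫ z, ψ z * f (x + y + z) = ∫ z, φ y * (ψ z * f (x + y + z)) :=
    fun y => (integral_const_mul _ _).symm
  have h2 : ∀ z : E n, ψ z * ∫ y, φ y * f (x + z + y) = ∫ y, φ y * (ψ z * f (x + y + z)) := by
    intro z
    rw [← integral_const_mul]
    congr 1; ext y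
    rw [show x + z + y = x + y + z by abel]; ring
  simp_rw [h1, h2]
  apply integral_integral_swap
  refine Continuous.integrable_of_hasCompactSupport ?_ ?_
  · have := hφ.cont; have := hψ.cont
    simp only [Function.uncurry_def]
    fun_prop
  · refine HasCompactSupport.intro (K := tsupport φ ×ˢ tsupport ψ)
      (hφ.cpt.isCompact.prod hψ.cpt.isCompact) ?_
    rintro ⟨y, z⟩ hyz
    simp only [mem_prod, not_and_or] at hyz
    rcases hyz with h | h
    · simp [image_eq_zero_of_notMem_tsupport h]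
    · simp [image_eq_zero_of_notMem_tsupport h]

/-- derivative of an average along a line -/
lemma hasDerivAt_cv {φ : E n → ℝ} (hφ : TF φ) {f : E n → ℝ} (hf : Continuous f) (x : E n)
    (i : Fin n) (s : ℝ) :
    HasDerivAt (fun s : ℝ => cv φ f (x + s • ee i)) (-cv (pd i φ) f (x + s • ee i)) s := by
  have hc : HasCompactSupport (fun y : E n => φ (-y)) := by
    have := hφ.cpt.comp_homeomorph (Homeomorph.neg (E n))
    exact this
  have hs : ContDiff ℝ 1 (fun y : E n => φ (-y)) :=
    (hφ.smooth.of_le (by simp)).comp contDiff_neg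
  have key := hc.hasFDerivAt_convolution_right (ContinuousLinearMap.mul ℝ ℝ) (μ := volume)
    (hf.locallyIntegrable) hs (x + s • ee i)
  have hcv : ∀ z : E n, cv φ f z = (f ⋆[ContinuousLinearMap.mul ℝ ℝ, volume] fun y => φ (-y)) z := by
    intro z
    rw [cv_eq, convolution_def]
    congr 1; ext y
    simp only [ContinuousLinearMap.mul_apply']
    rw [neg_sub, mul_comm]
  have hline : HasDerivAt (fun s : ℝ => x + s • ee i) (ee i) s := by
    have := ((hasDerivAt_id s).smul_const (ee i)).const_add x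
    simpa using this
  have h2 := key.comp_hasDerivAt s hline
  have h3 : ((f ⋆[(ContinuousLinearMap.mul ℝ ℝ).precompR (E n), volume]
      fderiv ℝ fun y => φ (-y)) (x + s • ee i)) (ee i) = -cv (pd i φ) f (x + s • ee i) := by
    rw [convolution_precompR_apply _ hf.locallyIntegrable (hc.fderiv ℝ)
      (hs.continuous_fderiv one_ne_zero), cv_eq, convolution_def, ← integral_neg]
    congr 1; ext y
    have h4 : fderiv ℝ (fun y : E n => φ (-y)) (x + s • ee i - y) (ee i)
        = - pd i φ (y - (x + s • ee i)) := by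
      have h5 : HasFDerivAt (fun y : E n => φ (-y))
          ((fderiv ℝ φ (-(x + s • ee i - y))).comp (-ContinuousLinearMap.id ℝ (E n)))
          (x + s • ee i - y) :=
        ((hφ.smooth.differentiable (by simp)).differentiableAt.hasFDerivAt).comp _
          ((hasFDerivAt_id _).neg)
      rw [h5.fderiv, pd]
      simp [neg_sub]
    simp only [ContinuousLinearMap.mul_apply']
    rw [h4]; ring
  rw [h3] at h2
  exact h2.congr_of_eventuallyEq (Eventually.of_forall fun s => hcv _)

/-- second derivative of an average along a line -/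
lemma hasDerivAt_cv2 {φ : E n → ℝ} (hφ : TF φ) {f : E n → ℝ} (hf : Continuous f) (x : E n)
    (i : Fin n) (s : ℝ) :
    HasDerivAt (fun s : ℝ => -cv (pd i φ) f (x + s • ee i))
      (cv (pd i (pd i φ)) f (x + s • ee i)) s := by
  have := (hasDerivAt_cv (hφ.pd i) hf x i s).fun_neg
  rwa [neg_neg] at this

lemma pd_cv {φ : E n → ℝ} (hφ : TF φ) {f : E n → ℝ} (hf : Continuous f)
    (hd : ∀ x, DifferentiableAt ℝ (cv φ f) x) (x : E n) (i : Fin n) :
    pd i (cv φ f) x = -cv (pd i φ) f x := by
  have h1 := hasDerivAt_cv hφ hf x i 0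
  have hline : HasDerivAt (fun s : ℝ => x + s • ee i) (ee i) 0 := by
    have := ((hasDerivAt_id (0:ℝ)).smul_const (ee i)).const_add x
    simpa using this
  have h2 : HasDerivAt (fun s : ℝ => cv φ f (x + s • ee i)) (pd i (cv φ f) x) 0 := by
    have hx : x = x + (0:ℝ) • ee i := by simp
    have := (hd (x + (0:ℝ) • ee i)).hasFDerivAt.comp_hasDerivAt (0:ℝ) hline
    rw [← hx] at this
    exact this
  have := h2.unique h1
  simpa using this

end Pool.Agent.Q64.HS
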