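import Pool.Agent.Q64.HS.Step

/-! # Exponential decay of the iterated averages forces vanishing -/

namespace Pool.Agent.Q64.HS

open MeasureTheory Set Filter Topology
open scoped ContDiff Convolution

variable {n : ℕ}

noncomputable def wt (n : ℕ) (a : ℝ) (x : E n) : ℝ := ((1 + a * ‖x‖) ^ (n + 1))⁻¹

lemma wt_pos {a : ℝ} (ha : 0 < a) (x : E n) : 0 < wt n a x := by
  unfold wt; positivity

lemma wt_cont {a : ℝ} (ha : 0 < a) : Continuous (wt n a) := by
  unfold wt
  refine Continuous.inv₀ (by fun_prop) fun x => by positivity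

lemma wt_integrable {a : ℝ} (ha : 0 < a) : Integrable (wt n a) := by
  have h1 : Integrable (fun x : E n => (1 + ‖x‖) ^ (-((n:ℝ) + 1))) := by
    apply integrable_one_add_norm
    simp [E]
  set m : ℝ := min 1 a with hm
  have hm0 : 0 < m := by positivity
  refine (h1.const_mul ((m ^ (n + 1))⁻¹)).mono' (wt_cont ha).aestronglyMeasurable
    (Eventually.of_forall fun x => ?_)
  rw [Real.norm_of_nonneg (wt_pos ha x).le, Real.rpow_neg (by positivity)]
  have h2 : (1 + ‖x‖) ^ ((n:ℝ) + 1) = (1 + ‖x‖) ^ (n + 1) := by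
    rw [← Real.rpow_natCast]; push_cast; rfl
  rw [h2, ← mul_inv, ← mul_pow, wt]
  have h3 : m * (1 + ‖x‖) ≤ 1 + a * ‖x‖ := by
    have h4 : m ≤ 1 := min_le_left _ _
    have h5 : m ≤ a := min_le_right _ _
    nlinarith [norm_nonneg x]
  have h4 : 0 < m * (1 + ‖x‖) := by positivity
  gcongr

lemma exp_half_le : Real.exp (1/2) ≤ 2 := by
  have h1 : Real.exp (1/2) ^ 2 = Real.exp 1 := by
    rw [← Real.exp_nat_mul]; norm_num
  have h2 := Real.exp_one_lt_d9
  nlinarith [Real.exp_pos (1/2)]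

lemma wt_shift {R : ℝ} (hR : 0 < R) (x y : E n) (hy : ‖y‖ ≤ R) :
    (1/2) * wt n (1 / (2 * R * (n + 1))) x ≤ wt n (1 / (2 * R * (n + 1))) (x - y) := by
  set a : ℝ := 1 / (2 * R * (n + 1)) with ha
  have ha0 : 0 < a := by positivity
  have h1 : 1 + a * ‖x - y‖ ≤ (1 + a * R) * (1 + a * ‖x‖) := by
    have h2 := norm_sub_le x y
    have h3 : a * ‖x - y‖ ≤ a * (‖x‖ + R) := by gcongr; linarith
    have h4 : 0 ≤ (a * R) * (a * ‖x‖) := by positivity
    nlinarith
  have h2 : (1 + a * R) ^ (n + 1) ≤ 2 := by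
    have h3 : 1 + a * R ≤ Real.exp (a * R) := by
      have := Real.add_one_le_exp (a * R); linarith
    calc (1 + a * R) ^ (n + 1) ≤ Real.exp (a * R) ^ (n + 1) := by gcongr
      _ = Real.exp (((n + 1 : ℕ) : ℝ) * (a * R)) := by rw [← Real.exp_nat_mul]
      _ = Real.exp (1/2) := by
          congr 1; rw [ha]; push_cast; field_simp
      _ ≤ 2 := exp_half_le
  have h3 : (1 + a * ‖x - y‖) ^ (n + 1) ≤ 2 * (1 + a * ‖x‖) ^ (n + 1) := by
    calc (1 + a * ‖x - y‖) ^ (n + 1) ≤ ((1 + a * R) * (1 + a * ‖x‖)) ^ (n + 1) := by gcongr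
      _ = (1 + a * R) ^ (n + 1) * (1 + a * ‖x‖) ^ (n + 1) := mul_pow _ _ _
      _ ≤ 2 * (1 + a * ‖x‖) ^ (n + 1) := by gcongr
  unfold wt
  rw [show (1/2 : ℝ) * ((1 + a * ‖x‖) ^ (n + 1))⁻¹ = (2 * (1 + a * ‖x‖) ^ (n + 1))⁻¹ by
    rw [mul_inv]; ring]
  have h4 : 0 < (1 + a * ‖x - y‖) ^ (n + 1) := by positivity
  exact inv_anti₀ h4 h3

lemma lam_ge {K : E n → ℝ} (hK : Ker K) {R : ℝ} (hR : 0 < R) {f : E n → ℝ} (hf : Continuous f)
    {C : ℝ} (h0 : ∀ x, 0 ≤ f x) (hC : ∀ x, f x ≤ C) :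
    (1/2) * ∫ x, wt n (1 / (2 * R * (n + 1))) x * f x
      ≤ ∫ x, wt n (1 / (2 * R * (n + 1))) x * cv (sc R K) f x := by
  set a : ℝ := 1 / (2 * R * (n + 1)) with ha
  have ha0 : 0 < a := by positivity
  have hfb : ∀ x, ‖f x‖ ≤ C := fun x => by rw [Real.norm_of_nonneg (h0 x)]; exact hC x
  have hwf : Integrable fun x => wt n a x * f x :=
    (wt_integrable ha0).mul_bdd hf.aestronglyMeasurable (Eventually.of_forall hfb)
  have h1 : ∀ x, wt n a x * cv (sc R K) f x = ∫ y, wt n a x * (K y * f (x + R • y)) := by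
    intro x; rw [cv_sc_eq hR, integral_const_mul]
  simp_rw [h1]
  have hint : Integrable (Function.uncurry fun (x y : E n) => wt n a x * (K y * f (x + R • y)))
      (volume.prod volume) := by
    have h2 : Integrable (fun p : E n × E n => wt n a p.1 * (K p.2 * C)) (volume.prod volume) :=
      (wt_integrable ha0).mul_prod (hK.tf.integrable.mul_const C)
    refine h2.mono' ?_ (Eventually.of_forall fun p => ?_)
    · have h3 := wt_cont (n := n) ha0
      have h4 := hK.tf.cont
      have h5 : Continuous (Function.uncurry fun (x y : E n) =>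
          wt n a x * (K y * f (x + R • y))) := by
        simp only [Function.uncurry_def]; fun_prop
      exact h5.aestronglyMeasurable
    · simp only [Function.uncurry_def, norm_mul]
      rw [Real.norm_of_nonneg (wt_pos ha0 _).le, Real.norm_of_nonneg (hK.nonneg _)]
      exact mul_le_mul_of_nonneg_left (mul_le_mul_of_nonneg_left (hfb _) (hK.nonneg _))
        (wt_pos ha0 _).le
  rw [integral_integral_swap hint]
  have h2 : ∀ y, ∫ x, wt n a x * (K y * f (x + R • y))
      = K y * ∫ x, wt n a (x - R • y) * f x := by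
    intro y
    rw [← integral_add_right_eq_self (μ := volume)
      (fun x => wt n a (x - R • y) * f x) (R • y), ← integral_const_mul]
    congr 1; ext x; rw [add_sub_cancel_right]; ring
  simp_rw [h2]
  have h3 : (1/2) * ∫ x, wt n a x * f x = ∫ y, K y * ((1/2) * ∫ x, wt n a x * f x) := by
    rw [integral_mul_const, hK.one, one_mul]
  rw [h3]
  refine integral_mono (hK.tf.integrable.mul_const _) ?_ fun y => ?_
  · have := hint.integral_prod_right
    refine this.congr (Eventually.of_forall fun y => ?_)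
    exact h2 y
  · simp only
    by_cases hy : 1 < ‖y‖
    · simp [hK.supp y hy]
    · push Not at hy
      refine mul_le_mul_of_nonneg_left ?_ (hK.nonneg y)
      rw [← integral_const_mul]
      refine integral_mono (hwf.const_mul _) ?_ fun x => ?_
      · have h4 : Integrable fun x => wt n a (x - R • y) :=
          (wt_integrable ha0).comp_sub_right (R • y)
        exact h4.mul_bdd hf.aestronglyMeasurable (Eventually.of_forall hfb)
      · simp only
        rw [← mul_assoc]
        refine mul_le_mul_of_nonneg_right ?_ (h0 x)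
        refine wt_shift hR x (R • y) ?_
        rw [norm_smul, Real.norm_of_nonneg hR.le]
        nlinarith

theorem decay {K : E n → ℝ} (hK : Ker K) {R : ℝ} (hR : 0 < R) {f : ℕ → E n → ℝ}
    (hc : ∀ k, Continuous (f k)) (hs : ∀ k, f (k + 1) = cv (sc R K) (f k)) {C : ℝ}
    (h0 : ∀ k x, 0 ≤ f k x) (hC : ∀ k x, f k x ≤ C / 4 ^ k) (x : E n) : f 0 x = 0 := by
  set a : ℝ := 1 / (2 * R * (n + 1)) with ha
  have ha0 : 0 < a := by positivity
  set Λ : ℕ → ℝ := fun k => ∫ x, wt n a x * f k x with hΛ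
  have hC0 : 0 ≤ C := by have := (h0 0 0).trans (hC 0 0); simpa using this
  have hfi : ∀ k, Integrable fun x => wt n a x * f k x := fun k =>
    (wt_integrable ha0).mul_bdd (hc k).aestronglyMeasurable
      (Eventually.of_forall fun x => by rw [Real.norm_of_nonneg (h0 k x)]; exact hC k x)
  have h1 : ∀ k, (1/2) * Λ k ≤ Λ (k + 1) := fun k => by
    simp only [hΛ]
    rw [hs k]
    exact lam_ge hK hR (hc k) (h0 k) (hC k)
  have h2 : ∀ k, (1/2) ^ k * Λ 0 ≤ Λ k := by
    intro k
    induction k with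
    | zero => simp
    | succ k ih =>
      calc (1/2) ^ (k + 1) * Λ 0 = (1/2) * ((1/2) ^ k * Λ 0) := by ring
        _ ≤ (1/2) * Λ k := by gcongr
        _ ≤ _ := h1 k
  set W : ℝ := ∫ x, wt n a x with hW
  have h3 : ∀ k, Λ k ≤ C / 4 ^ k * W := by
    intro k
    simp only [hΛ]
    rw [hW, mul_comm, ← integral_mul_const]
    refine integral_mono (hfi k) ((wt_integrable ha0).mul_const _) fun x => ?_
    exact mul_le_mul_of_nonneg_left (hC k x) (wt_pos ha0 x).le
  have h4 : ∀ k : ℕ, Λ 0 ≤ C * W * (1/2) ^ k := by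
    intro k
    have h5 := (h2 k).trans (h3 k)
    have h6 : (0:ℝ) < 2 ^ k := by positivity
    have h7 : (1/2 : ℝ) ^ k = (2 ^ k)⁻¹ := by rw [one_div, inv_pow]
    have h8 : (4:ℝ) ^ k = 2 ^ k * 2 ^ k := by rw [← mul_pow]; norm_num
    rw [h7, h8] at h5
    rw [h7]
    have h9 := mul_le_mul_of_nonneg_left h5 h6.le
    calc Λ 0 = 2 ^ k * ((2 ^ k)⁻¹ * Λ 0) := by field_simp
      _ ≤ 2 ^ k * (C / (2 ^ k * 2 ^ k) * W) := h9
      _ = C * W * (2 ^ k)⁻¹ := by field_simp
  have h5 : Λ 0 ≤ 0 := by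
    have h6 : Tendsto (fun k : ℕ => C * W * (1/2 : ℝ) ^ k) atTop (𝓝 (C * W * 0)) :=
      (tendsto_pow_atTop_nhds_zero_of_lt_one (by norm_num) (by norm_num)).const_mul _
    rw [mul_zero] at h6
    exact ge_of_tendsto' h6 h4
  have hnn : 0 ≤ fun x => wt n a x * f 0 x := fun x => mul_nonneg (wt_pos ha0 x).le (h0 0 x)
  have h6 : Λ 0 = 0 := le_antisymm h5 (integral_nonneg hnn)
  have h7 := (integral_eq_zero_iff_of_nonneg hnn (hfi 0)).1 h6
  have h8 : (fun x => wt n a x * f 0 x) = fun _ => 0 := by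
    have hcc : Continuous fun x => wt n a x * f 0 x := (wt_cont ha0).mul (hc 0)
    exact (hcc.ae_eq_iff_eq volume continuous_const).1 h7
  have h9 := congrFun h8 x
  exact (mul_eq_zero.1 h9).resolve_left (wt_pos ha0 x).ne'

/-- iterates -/
noncomputable def its (φ : E n → ℝ) (v : E n → ℝ → ℝ) : ℕ → E n → ℝ → ℝ
  | 0 => v
  | k + 1 => av φ (its φ v k)

noncomputable def itr (φ : E n → ℝ) (ρ : E n → ℝ) : ℕ → E n → ℝ
  | 0 => ρ
  | k + 1 => cv φ (itr φ ρ k)

theorem Good.vanish {v G : E n → ℝ → ℝ} {ρ : E n → ℝ} (H : Good v G ρ) :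
    (∀ x, ρ x = 0) ∧ ∀ x, v x (2 * Real.pi) = 0 := by
  obtain ⟨K, hK⟩ := exists_ker n
  set L : ℝ := ∫ y, |lap K y| with hL
  have hL0 : 0 ≤ L := integral_nonneg fun y => abs_nonneg _
  set R : ℝ := 308 * L + 1 with hR
  have hR1 : 1 ≤ R := by linarith
  have hR0 : 0 < R := by linarith
  have hLR : 77 * ((R ^ 2)⁻¹ * L) ≤ 1/4 := by
    have h1 : 308 * L ≤ R ^ 2 := by nlinarith
    have h2 : 0 < R ^ 2 := by positivity
    rw [inv_mul_eq_div, mul_div_assoc', div_le_iff₀ h2]
    linarith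
  set φ := sc R K with hφ
  have hφA : Avg φ := hK.avg hR0
  have hL1 : ∫ y, |lap φ y| = (R ^ 2)⁻¹ * L := L1_lap_sc hK.tf hR0
  obtain ⟨M, hM⟩ := H.bv
  obtain ⟨C, hC⟩ := H.bρ
  have hM0 : 0 ≤ M := (abs_nonneg _).trans (hM 0 0)
  have hC0 : 0 ≤ C := (abs_nonneg _).trans (hC 0)
  have hgood : ∀ k, Good (its φ v k) (its φ G k) (itr φ ρ k) := by
    intro k
    induction k with
    | zero => exact H
    | succ k ih => exact ih.avg hφA
  have hb : ∀ k x t, 0 ≤ t → t ≤ 7 → |its φ v k x t| ≤ M / 4 ^ k := by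
    intro k
    induction k with
    | zero => intro x t _ _; simpa [its] using hM x t
    | succ k ih =>
      intro x t h0 h7
      have h1 := ((hgood k).step hφA ih).2 x t h0 h7
      rw [hL1] at h1
      refine h1.trans ?_
      have h2 : 0 ≤ M / 4 ^ k := by positivity
      have h3 : 77 * ((R ^ 2)⁻¹ * L * (M / 4 ^ k)) ≤ 1/4 * (M / 4 ^ k) := by nlinarith
      refine h3.trans (le_of_eq ?_)
      rw [pow_succ]; field_simp
  have hr : ∀ k x, itr φ ρ k x ≤ (M + C) / 4 ^ k := by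
    intro k x
    cases k with
    | zero =>
      have h1 : ρ x ≤ M + C := (le_abs_self _).trans ((hC x).trans (by linarith))
      simpa [itr] using h1
    | succ k =>
      have h1 := ((hgood k).step hφA (hb k)).1 x
      rw [hL1] at h1
      refine h1.trans ?_
      have h2 : 0 ≤ M / 4 ^ k := by positivity
      have h3 : 0 ≤ (R ^ 2)⁻¹ * L * (M / 4 ^ k) := by positivity
      have h4 : 63 * ((R ^ 2)⁻¹ * L * (M / 4 ^ k)) ≤ 1/4 * (M / 4 ^ k) := by nlinarith
      refine h4.trans ?_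
      have h5 : 1/4 * (M / 4 ^ k) = M / 4 ^ (k + 1) := by rw [pow_succ]; field_simp
      rw [h5]
      gcongr
      linarith
  constructor
  · exact fun x => decay hK hR0 (f := itr φ ρ) (fun k => (hgood k).cρ) (fun k => rfl)
      (fun k x => (hgood k).rho_nonneg x) hr x
  · intro x
    refine decay hK hR0 (f := fun k x => its φ v k x (2 * Real.pi))
      (fun k => cont_slice (hgood k).cv' _) (fun k => rfl) (C := M)
      (fun k x => ?_) (fun k x => ?_) x
    · have := (hgood k).pos x (2 * Real.pi) two_pi_nonneg two_pi_le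
      rw [Real.cos_two_pi] at this
      linarith
    · exact (le_abs_self _).trans (hb k x _ two_pi_nonneg two_pi_le)

end Pool.Agent.Q64.HS
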