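import Pool.Agent.Q64.HS.Base

/-! # Uniqueness in the half-space -/

namespace Pool.Agent.Q64.HS

open MeasureTheory Set Filter Topology
open scoped ContDiff Convolution

variable {n : ℕ} {u : X n → ℝ}

noncomputable def cl (t : ℝ) : ℝ := max 0 (min t 7)

lemma cl_nonneg (t : ℝ) : 0 ≤ cl t := le_max_left _ _

lemma cl_le (t : ℝ) : cl t ≤ 7 := max_le (by norm_num) (min_le_right _ _)

lemma cl_eq {t : ℝ} (h0 : 0 ≤ t) (h7 : t ≤ 7) : cl t = t := by
  rw [cl, min_eq_left h7, max_eq_right h0]

lemma cl_cont : Continuous cl := by unfold cl; fun_prop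

noncomputable def ww (u : X n → ℝ) (x : E n) (t : ℝ) : ℝ :=
  u (pt x (cl t)) - (1 - Real.cos (cl t))

lemma Sol.ww_cont (S : Sol u) : Continuous fun p : E n × ℝ => ww u p.1 p.2 := by
  have h1 : Continuous fun p : E n × ℝ => u (pt p.1 (cl p.2)) := by
    have h2 : Continuous fun p : E n × ℝ => pt p.1 (cl p.2) :=
      pt_cont.comp (f := fun p : E n × ℝ => (p.1, cl p.2))
        (continuous_fst.prodMk (cl_cont.comp continuous_snd))
    rw [← continuousOn_univ]
    refine S.cont.comp h2.continuousOn fun p _ => ?_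
    show 0 ≤ pt p.1 (cl p.2) (Fin.last n)
    rw [pt_last]; exact cl_nonneg _
  have h3 : Continuous fun p : E n × ℝ => (1:ℝ) - Real.cos (cl p.2) :=
    continuous_const.sub (Real.continuous_cos.comp (cl_cont.comp continuous_snd))
  exact h1.sub h3

lemma Sol.ww_bdd (S : Sol u) : ∃ C, ∀ x t, |ww u x t| ≤ C := by
  obtain ⟨C, hC, h⟩ := S.H 7 (by norm_num)
  refine ⟨C + 2, fun x t => ?_⟩
  have h1 := h (pt x (cl t)) (by rw [pt_last]; exact cl_nonneg t) (by rw [pt_last]; exact cl_le t)
  have h2 := Real.neg_one_le_cos (cl t)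
  have h3 := Real.cos_le_one (cl t)
  rw [ww, abs_le]
  constructor <;> linarith [h1.1, h1.2]

lemma cv_lap_const {φ : E n → ℝ} (hφ : TF φ) (c : ℝ) (x : E n) :
    cv (lap φ) (fun _ => c) x = 0 := by
  rw [← cv_lap hφ contDiff_const]
  have : lap (fun _ : E n => c) = fun _ => 0 := by
    ext y
    have h1 : ∀ i : Fin n, pd i (fun _ : E n => c) = fun _ => 0 := fun i => by
      ext z; simp [pd]
    simp only [lap, h1]
    simp [pd]
  rw [this]; simp [cv]

lemma ptc (t : ℝ) : Continuous fun x : E n => pt x t :=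
  pt_cont.comp (f := fun x : E n => (x, t)) (by fun_prop)

lemma Sol.good (S : Sol u) {φ : E n → ℝ} (hφ : Avg φ) :
    ∃ ρ, Good (av φ (ww u)) (fun x t => -cv (lap φ) (fun y => ww u y t) x) ρ := by
  set v := av φ (ww u) with hv
  set G : E n → ℝ → ℝ := fun x t => -cv (lap φ) (fun y => ww u y t) x with hG
  have hvc : Continuous fun p : E n × ℝ => v p.1 p.2 := av_cont hφ.tf S.ww_cont
  have hGc : Continuous fun p : E n × ℝ => G p.1 p.2 := (av_cont hφ.tf.lap S.ww_cont).neg
  obtain ⟨C, hC⟩ := S.ww_bdd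
  have hvb : ∀ x t, |v x t| ≤ (∫ y, |φ y|) * C := fun x t => cv_bound hφ.tf (fun y => hC y t) x
  have hGb : ∀ x t, |G x t| ≤ (∫ y, |lap φ y|) * C := fun x t => by
    simp only [hG, abs_neg]; exact cv_bound hφ.tf.lap (fun y => hC y t) x
  -- the double primitive
  set P : E n → ℝ → ℝ := fun x t => ∫ s in (0:ℝ)..t, (t - s) * (G x s - v x s) with hP
  have hslc : ∀ x, Continuous fun s => G x s - v x s := fun x =>
    (cont_slice' hGc x).sub (cont_slice' hvc x)
  set ρ : E n → ℝ := fun x => v x 1 - P x 1 with hρ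
  have hode : ∀ x t, 0 ≤ t → t ≤ 7 → v x t = t * ρ x + P x t := by
    intro x t h0 h7
    -- derivatives of the average without clamp
    have hf1 : ∀ t, 0 < t → HasDerivAt (fun t => cv φ (fun y => u (pt y t)) x)
        (cv φ (fun y => fderiv ℝ u (pt y t) (eN n)) x) t := fun t ht => by
      refine hasDerivAt_cvt hφ.tf (F := fun y t => u (pt y t))
        (F' := fun y t => fderiv ℝ u (pt y t) (eN n)) x ?_ (fun y t ht => S.dt1 y ht)
        (fun t ht => (S.slice_c2 ht).continuous) ht
      have h1 : ContinuousOn (fderiv ℝ u) (HSopen n) := S.cf.continuousOn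
      have h2 : ContinuousOn (fun p : E n × ℝ => fderiv ℝ u (pt p.1 p.2)) {p | 0 < p.2} :=
        h1.comp pt_cont.continuousOn (fun p hp => pt_mem p.1 hp)
      exact h2.clm_apply continuousOn_const
    have hf2 : ∀ t, 0 < t → HasDerivAt (fun t => cv φ (fun y => fderiv ℝ u (pt y t) (eN n)) x)
        (cv φ (fun y => fderiv ℝ (fderiv ℝ u) (pt y t) (eN n) (eN n)) x) t := fun t ht => by
      refine hasDerivAt_cvt hφ.tf (F := fun y t => fderiv ℝ u (pt y t) (eN n))
        (F' := fun y t => fderiv ℝ (fderiv ℝ u) (pt y t) (eN n) (eN n)) x ?_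
        (fun y t ht => S.dt2 y ht) (fun t ht => ?_) ht
      · have h2 : ContinuousOn (fun p : E n × ℝ => fderiv ℝ (fderiv ℝ u) (pt p.1 p.2))
            {p | 0 < p.2} :=
          S.cff.comp pt_cont.continuousOn (fun p hp => pt_mem p.1 hp)
        exact (h2.clm_apply continuousOn_const).clm_apply continuousOn_const
      · have h1 : ContinuousOn (fderiv ℝ u) (HSopen n) := S.cf.continuousOn
        have h2 : Continuous (fun y : E n => fderiv ℝ u (pt y t)) := by
          rw [← continuousOn_univ]
          exact h1.comp (ptc t).continuousOn (fun y _ => pt_mem y ht)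
        exact h2.clm_apply continuous_const
    have hslice : ∀ t, 0 < t → t < 7 → (fun y => ww u y t)
        = fun y => u (pt y t) - (1 - Real.cos t) := by
      intro t h0 h7; ext y; rw [ww, cl_eq h0.le h7.le]
    have hpc : ∀ t, 0 < t → Continuous fun y => u (pt y t) := fun t ht => (S.slice_c2 ht).continuous
    have hveq : ∀ t, 0 < t → t < 7 →
        v x t = cv φ (fun y => u (pt y t)) x - (1 - Real.cos t) := by
      intro t h0 h7
      rw [hv, av, hslice t h0 h7, cv_sub hφ.tf (hpc t h0) continuous_const, cv_const hφ.one]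
    have hGeq : ∀ t, 0 < t → t < 7 → G x t = -cv (lap φ) (fun y => u (pt y t)) x := by
      intro t h0 h7
      simp only [hG]
      rw [hslice t h0 h7, cv_sub hφ.tf.lap (hpc t h0) continuous_const, cv_lap_const hφ.tf,
        sub_zero]
    have hD2 : ∀ t, 0 < t → cv φ (fun y => fderiv ℝ (fderiv ℝ u) (pt y t) (eN n) (eN n)) x
        = 1 - cv φ (fun y => u (pt y t)) x - cv (lap φ) (fun y => u (pt y t)) x := by
      intro t ht
      have h1 : (fun y => fderiv ℝ (fderiv ℝ u) (pt y t) (eN n) (eN n))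
          = fun y => (1 - u (pt y t)) - lap (fun x => u (pt x t)) y := by
        ext y; exact S.pde y ht
      have hlc : Continuous (lap fun x : E n => u (pt x t)) := by
        have h2 : (lap fun x : E n => u (pt x t)) = fun x => ∑ i : Fin n,
            fderiv ℝ (fderiv ℝ u) (pt x t) (inc n (ee i)) (inc n (ee i)) := by
          ext y; exact S.lap_slice y ht
        rw [h2]
        have h3 : Continuous (fun y : E n => fderiv ℝ (fderiv ℝ u) (pt y t)) := by
          rw [← continuousOn_univ]
          exact S.cff.comp (ptc t).continuousOn (fun y _ => pt_mem y ht)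
        refine continuous_finsetSum _ fun i _ => ?_
        exact (h3.clm_apply continuous_const).clm_apply continuous_const
      rw [h1, cv_sub hφ.tf (f := fun y => 1 - u (pt y t)) (continuous_const.sub (hpc t ht)) hlc,
        cv_sub hφ.tf continuous_const (hpc t ht), cv_const hφ.one,
        cv_lap hφ.tf (S.slice_c2 ht)]
    -- the affine function
    have hv0 : v x 0 = 0 := by
      have h1 : (fun y => ww u y 0) = fun _ => 0 := by
        ext y
        rw [ww, cl_eq le_rfl (by norm_num), Real.cos_zero, S.bd _ (pt_last y 0)]; ring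
      rw [hv, av, h1]; simp [cv]
    have hP1 : ∀ t, HasDerivAt (P x) (∫ s in (0:ℝ)..t, (G x s - v x s)) t := fun t =>
      hasDerivAt_dbl (hslc x) t
    have hP0 : P x 0 = 0 := by simp [hP]
    have key := affine_of (T := 7) (by norm_num) (d := fun t => v x t - P x t)
      (e := fun t => cv φ (fun y => fderiv ℝ u (pt y t) (eN n)) x - Real.sin t
        - ∫ s in (0:ℝ)..t, (G x s - v x s)) ?_ ?_ ?_ ?_ t ⟨h0, h7⟩
    · simp only [hρ]
      have : v x t - P x t = t * (v x 1 - P x 1) := key
      linarith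
    · exact ((cont_slice' hvc x).sub (continuous_iff_continuousAt.2 fun t =>
        (hP1 t).continuousAt)).continuousOn
    · intro t ht
      have h1 : HasDerivAt (v x) (cv φ (fun y => fderiv ℝ u (pt y t) (eN n)) x - Real.sin t) t := by
        have h2 := (hf1 t ht.1).fun_sub ((Real.hasDerivAt_cos t).const_sub 1)
        rw [neg_neg] at h2
        refine h2.congr_of_eventuallyEq ?_
        filter_upwards [Ioo_mem_nhds ht.1 ht.2] with s hs
        exact hveq s hs.1 hs.2
      exact h1.fun_sub (hP1 t)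
    · intro t ht
      have h1 := ((hf2 t ht.1).fun_sub (Real.hasDerivAt_sin t)).fun_sub
        ((hslc x).integral_hasStrictDerivAt 0 t).hasDerivAt
      refine h1.congr_deriv ?_
      rw [hD2 t ht.1, hveq t ht.1 ht.2, hGeq t ht.1 ht.2]
      ring
    · rw [hv0, hP0, sub_zero]
  have hPc : Continuous fun x => P x 1 := by
    refine intervalIntegral.continuous_parametric_intervalIntegral_of_continuous' ?_ _ _
    simp only [Function.uncurry_def]
    fun_prop
  refine ⟨ρ, ?_⟩
  refine
    { cv' := hvc, cG := hGc, cρ := (cont_slice hvc 1).sub hPc, bv := ⟨_, hvb⟩, bG := ⟨_, hGb⟩,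
      bρ := ?_, ode := hode, weak := ?_, pos := ?_ }
  · refine ⟨(∫ y, |φ y|) * C + ((∫ y, |lap φ y|) * C + (∫ y, |φ y|) * C) * 1, fun x => ?_⟩
    have h1 : |P x 1| ≤ ((∫ y, |lap φ y|) * C + (∫ y, |φ y|) * C) * 1 := by
      refine integral_le_of_bound zero_le_one fun s hs => ?_
      rw [abs_mul]
      have h2 : |1 - s| ≤ 1 := by rw [abs_le]; constructor <;> linarith [hs.1, hs.2]
      have h3 : |G x s - v x s| ≤ (∫ y, |lap φ y|) * C + (∫ y, |φ y|) * C :=
        (abs_sub _ _).trans (add_le_add (hGb x s) (hvb x s))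
      calc |1 - s| * |G x s - v x s| ≤ 1 * ((∫ y, |lap φ y|) * C + (∫ y, |φ y|) * C) :=
            mul_le_mul h2 h3 (abs_nonneg _) zero_le_one
        _ = _ := one_mul _
    exact (abs_sub _ _).trans (add_le_add (hvb x 1) h1)
  · intro ψ hψ t x
    have hw := cont_slice S.ww_cont t
    have h1 : (fun y => G y t) = fun y => (-1) * cv (lap φ) (fun y => ww u y t) y := by
      ext y; simp only [hG]; ring
    rw [h1, cv_smul, cv_comm hψ hφ.tf.lap hw, cv_lap_swap hφ.tf hψ hw]
    show -1 * cv (lap ψ) (cv φ fun y => ww u y t) x = -cv (lap ψ) (cv φ fun y => ww u y t) x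
    ring
  · intro x t h0 h7
    have h1 : v x t + (1 - Real.cos t) = cv φ (fun y => ww u y t + (1 - Real.cos t)) x := by
      rw [cv_add hφ.tf (cont_slice S.ww_cont t) continuous_const, cv_const hφ.one]; rfl
    rw [h1]
    refine cv_nonneg hφ.nonneg (fun y => ?_) x
    obtain ⟨C', _, h⟩ := S.H 7 (by norm_num)
    have h2 := (h (pt y t) (by rw [pt_last]; exact h0) (by rw [pt_last]; exact h7)).1
    rw [ww, cl_eq h0 h7]
    linarith

lemma Sol.first (S : Sol u) (x : E n) {t : ℝ} (h0 : 0 ≤ t) (h1 : t ≤ 2 * Real.pi) :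
    u (pt x t) = 1 - Real.cos t := by
  obtain ⟨K, hK⟩ := exists_ker n
  have h2 : ww u x t = 0 := by
    refine eq_zero_of_cv hK (cont_slice S.ww_cont t) x fun ε hε => ?_
    obtain ⟨ρ, H⟩ := S.good (hK.avg hε)
    exact H.zero x ⟨h0, h1⟩
  rw [ww, cl_eq h0 (h1.trans two_pi_le)] at h2
  linarith

lemma Sol.shift (S : Sol u) : Sol (fun p => u (p + (2 * Real.pi) • eN n)) := by
  have hlast : ∀ p : X n, (p + (2 * Real.pi) • eN n) (Fin.last n) = p (Fin.last n) + 2 * Real.pi := by
    intro p; simp [eN]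
  have hpi : 0 < 2 * Real.pi := by positivity
  refine ⟨?_, ?_, ?_, ?_, ?_⟩
  · refine S.cont.comp (f := fun p => p + (2 * Real.pi) • eN n) (by fun_prop) fun p hp => ?_
    show 0 ≤ (p + (2 * Real.pi) • eN n) (Fin.last n)
    rw [hlast]
    have : 0 ≤ p (Fin.last n) := hp
    linarith
  · refine S.c2.comp (f := fun p => p + (2 * Real.pi) • eN n) (by fun_prop) fun p hp => ?_
    show 0 < (p + (2 * Real.pi) • eN n) (Fin.last n)
    rw [hlast]
    have : 0 < p (Fin.last n) := hp
    linarith
  · intro p hp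
    have h1 := S.eq (p + (2 * Real.pi) • eN n) (by rw [hlast]; linarith)
    have h2 : Laplacian.laplacian (fun p => u (p + (2 * Real.pi) • eN n)) p
        = Laplacian.laplacian u (p + (2 * Real.pi) • eN n) := by
      simp only [InnerProductSpace.laplacian_eq_iteratedFDeriv_orthonormalBasis _
        (EuclideanSpace.basisFun (Fin (n + 1)) ℝ)]
      refine Finset.sum_congr rfl fun j _ => ?_
      rw [iteratedFDeriv_comp_add_right]
    rw [h2]; exact h1
  · intro p hp
    obtain ⟨x, hx⟩ := exists_pt (p + (2 * Real.pi) • eN n)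
    rw [hlast, hp, zero_add] at hx
    rw [hx, S.first x two_pi_nonneg le_rfl, Real.cos_two_pi, sub_self]
  · intro M hM
    obtain ⟨C, hC, h⟩ := S.H (M + 2 * Real.pi) (by linarith)
    refine ⟨C, hC, fun p h0 h1 => h _ ?_ ?_⟩
    · rw [hlast]; linarith
    · rw [hlast]; linarith

lemma Sol.all (m : ℕ) : ∀ {u : X n → ℝ}, Sol u → ∀ p : X n, 0 ≤ p (Fin.last n) →
    p (Fin.last n) ≤ m * (2 * Real.pi) → u p = 1 - Real.cos (p (Fin.last n)) := by
  induction m with
  | zero =>
    intro u S p h0 h1
    have h2 : p (Fin.last n) = 0 := le_antisymm (by simpa using h1) h0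
    rw [S.bd p h2, h2]; simp
  | succ m ih =>
    intro u S p h0 h1
    by_cases h2 : p (Fin.last n) ≤ 2 * Real.pi
    · obtain ⟨x, hx⟩ := exists_pt p
      rw [hx, S.first x h0 h2, pt_last]
    · push Not at h2
      have hlast : (p - (2 * Real.pi) • eN n) (Fin.last n) = p (Fin.last n) - 2 * Real.pi := by
        simp [eN]
      have h3 := ih S.shift (p - (2 * Real.pi) • eN n) (by rw [hlast]; linarith)
        (by rw [hlast]; push_cast at h1; linarith)
      rw [hlast, Real.cos_sub_two_pi] at h3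
      simpa using h3

theorem Sol.unique (S : Sol u) (p : X n) (hp : 0 ≤ p (Fin.last n)) :
    u p = 1 - Real.cos (p (Fin.last n)) := by
  obtain ⟨m, hm⟩ := exists_nat_ge (p (Fin.last n) / (2 * Real.pi))
  refine Sol.all m S p hp ?_
  rwa [div_le_iff₀ (by positivity)] at hm

end Pool.Agent.Q64.HS
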