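import Pool.Agent.Q64.HS.Decay

/-! # Uniqueness on `[0, 2π]` -/

namespace Pool.Agent.Q64.HS

open MeasureTheory Set Filter Topology
open scoped ContDiff Convolution

variable {n : ℕ}

lemma moments {h : ℝ → ℝ} (hh : Continuous h) {T : ℝ} (hT : 0 < T)
    (hm : ∀ k : ℕ, ∫ t in (0:ℝ)..T, h t * t ^ k = 0) : ∀ t ∈ Icc 0 T, h t = 0 := by
  have hp : ∀ p : Polynomial ℝ, ∫ t in (0:ℝ)..T, h t * p.eval t = 0 := by
    intro p
    have h1 : ∀ t, h t * p.eval t = ∑ i ∈ Finset.range (p.natDegree + 1), p.coeff i * (h t * t ^ i) := by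
      intro t
      rw [Polynomial.eval_eq_sum_range, Finset.mul_sum]
      exact Finset.sum_congr rfl fun i _ => by ring
    simp_rw [h1]
    rw [intervalIntegral.integral_finsetSum]
    · refine Finset.sum_eq_zero fun i _ => ?_
      rw [intervalIntegral.integral_const_mul, hm i, mul_zero]
    · intro i _
      exact (continuous_const.mul (hh.mul (continuous_id.pow i))).intervalIntegrable _ _
  by_contra hcon
  push Not at hcon
  obtain ⟨t0, ht0, hne⟩ := hcon
  have hpos : 0 < ∫ t in (0:ℝ)..T, h t ^ 2 :=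
    intervalIntegral.integral_pos hT (hh.pow 2).continuousOn (fun t _ => sq_nonneg _)
      ⟨t0, ht0, by positivity⟩
  set I := ∫ t in (0:ℝ)..T, h t ^ 2 with hI
  set A := ∫ t in (0:ℝ)..T, |h t| with hA
  have hA0 : 0 ≤ A := intervalIntegral.integral_nonneg hT.le fun t _ => abs_nonneg _
  obtain ⟨p, hp1⟩ := exists_polynomial_near_of_continuousOn 0 T h hh.continuousOn
    (I / (2 * (A + 1))) (by positivity)
  have hpc : Continuous fun t => p.eval t := p.continuous
  have h2 : I = ∫ t in (0:ℝ)..T, h t * (h t - p.eval t) := by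
    have i1 : IntervalIntegrable (fun t => h t ^ 2) volume 0 T := (hh.pow 2).intervalIntegrable _ _
    have i2 : IntervalIntegrable (fun t => h t * p.eval t) volume 0 T :=
      (hh.mul hpc).intervalIntegrable _ _
    have h3 : ∫ t in (0:ℝ)..T, h t * (h t - p.eval t)
        = ∫ t in (0:ℝ)..T, (h t ^ 2 - h t * p.eval t) :=
      intervalIntegral.integral_congr fun t _ => by ring
    rw [h3, intervalIntegral.integral_sub i1 i2, hp p, sub_zero]
  have h3 : I ≤ ∫ t in (0:ℝ)..T, |h t| * (I / (2 * (A + 1))) := by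
    refine (le_of_eq h2).trans ?_
    refine intervalIntegral.integral_mono_on hT.le
      ((hh.mul (hh.sub hpc)).intervalIntegrable _ _)
      ((hh.abs.mul continuous_const).intervalIntegrable _ _) fun t ht => ?_
    refine (le_abs_self _).trans ?_
    rw [abs_mul]
    refine mul_le_mul_of_nonneg_left ?_ (abs_nonneg _)
    rw [abs_sub_comm]
    exact (hp1 t ht).le
  rw [intervalIntegral.integral_mul_const] at h3
  have h4 : A * (I / (2 * (A + 1))) ≤ I / 2 := by
    have : A * (I / (2 * (A + 1))) = I / 2 * (A / (A + 1)) := by field_simp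
    rw [this]
    have h5 : A / (A + 1) ≤ 1 := by rw [div_le_one (by positivity)]; linarith
    nlinarith
  linarith

lemma hasDerivAt_cosint {h : ℝ → ℝ} (hh : Continuous h) (T l : ℝ) :
    HasDerivAt (fun l : ℝ => ∫ t in (0:ℝ)..T, h t * Real.cos (l * t))
      (∫ t in (0:ℝ)..T, -(h t * t * Real.sin (l * t))) l := by
  refine (intervalIntegral.hasDerivAt_integral_of_dominated_loc_of_deriv_le
    (F := fun l t => h t * Real.cos (l * t)) (F' := fun l t => -(h t * t * Real.sin (l * t)))
    (bound := fun t => |h t * t|) (s := univ) univ_mem ?_ ?_ ?_ ?_ ?_ ?_).2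
  · exact Eventually.of_forall fun l =>
      (by fun_prop : Continuous fun t => h t * Real.cos (l * t)).aestronglyMeasurable
  · exact (by fun_prop : Continuous fun t => h t * Real.cos (l * t)).intervalIntegrable _ _
  · exact (by fun_prop : Continuous fun t => -(h t * t * Real.sin (l * t))).aestronglyMeasurable
  · refine Eventually.of_forall fun t _ l _ => ?_
    rw [norm_neg, norm_mul, Real.norm_eq_abs, Real.norm_eq_abs]
    calc |h t * t| * |Real.sin (l * t)| ≤ |h t * t| * 1 :=
          mul_le_mul_of_nonneg_left (Real.abs_sin_le_one _) (abs_nonneg _)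
      _ = _ := mul_one _
  · exact (by fun_prop : Continuous fun t => |h t * t|).intervalIntegrable _ _
  · refine Eventually.of_forall fun t _ l _ => ?_
    have h1 : HasDerivAt (fun l : ℝ => l * t) t l := by
      simpa using (hasDerivAt_id l).mul_const t
    have h2 := (h1.cos).const_mul (h t)
    refine h2.congr_deriv ?_
    ring

lemma hasDerivAt_sinint {h : ℝ → ℝ} (hh : Continuous h) (T l : ℝ) :
    HasDerivAt (fun l : ℝ => ∫ t in (0:ℝ)..T, h t * Real.sin (l * t))
      (∫ t in (0:ℝ)..T, h t * t * Real.cos (l * t)) l := by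
  refine (intervalIntegral.hasDerivAt_integral_of_dominated_loc_of_deriv_le
    (F := fun l t => h t * Real.sin (l * t)) (F' := fun l t => h t * t * Real.cos (l * t))
    (bound := fun t => |h t * t|) (s := univ) univ_mem ?_ ?_ ?_ ?_ ?_ ?_).2
  · exact Eventually.of_forall fun l =>
      (by fun_prop : Continuous fun t => h t * Real.sin (l * t)).aestronglyMeasurable
  · exact (by fun_prop : Continuous fun t => h t * Real.sin (l * t)).intervalIntegrable _ _
  · exact (by fun_prop : Continuous fun t => h t * t * Real.cos (l * t)).aestronglyMeasurable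
  · refine Eventually.of_forall fun t _ l _ => ?_
    rw [norm_mul, Real.norm_eq_abs, Real.norm_eq_abs]
    calc |h t * t| * |Real.cos (l * t)| ≤ |h t * t| * 1 :=
          mul_le_mul_of_nonneg_left (Real.abs_cos_le_one _) (abs_nonneg _)
      _ = _ := mul_one _
  · exact (by fun_prop : Continuous fun t => |h t * t|).intervalIntegrable _ _
  · refine Eventually.of_forall fun t _ l _ => ?_
    have h1 : HasDerivAt (fun l : ℝ => l * t) t l := by
      simpa using (hasDerivAt_id l).mul_const t
    have h2 := (h1.sin).const_mul (h t)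
    refine h2.congr_deriv ?_
    ring

lemma fourier_zero {g : ℝ → ℝ} (hg : Continuous g) {T : ℝ} (hT : 0 < T)
    (h : ∀ l : ℝ, 1 < l → ∫ t in (0:ℝ)..T, g t * Real.cos (l * t) = 0 ∧
      ∫ t in (0:ℝ)..T, g t * Real.sin (l * t) = 0) : ∀ t ∈ Icc 0 T, g t = 0 := by
  have key : ∀ k : ℕ, ∀ l : ℝ, 1 < l → ∫ t in (0:ℝ)..T, g t * t ^ k * Real.cos (l * t) = 0 ∧
      ∫ t in (0:ℝ)..T, g t * t ^ k * Real.sin (l * t) = 0 := by
    intro k
    induction k with
    | zero => intro l hl; simpa using h l hl
    | succ k ih =>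
      intro l hl
      have hgk : Continuous fun t => g t * t ^ k := by fun_prop
      have h1 := hasDerivAt_cosint hgk T l
      have h2 := hasDerivAt_sinint hgk T l
      have hev : ∀ᶠ l' in 𝓝 l, 1 < l' := lt_mem_nhds hl
      have h3 : HasDerivAt (fun l : ℝ => ∫ t in (0:ℝ)..T, g t * t ^ k * Real.cos (l * t)) 0 l :=
        (hasDerivAt_const l (0:ℝ)).congr_of_eventuallyEq (hev.mono fun l' hl' => (ih l' hl').1)
      have h4 : HasDerivAt (fun l : ℝ => ∫ t in (0:ℝ)..T, g t * t ^ k * Real.sin (l * t)) 0 l :=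
        (hasDerivAt_const l (0:ℝ)).congr_of_eventuallyEq (hev.mono fun l' hl' => (ih l' hl').2)
      have h5 := h1.unique h3
      have h6 := h2.unique h4
      constructor
      · refine Eq.trans ?_ h6
        exact intervalIntegral.integral_congr fun t _ => by ring
      · rw [intervalIntegral.integral_neg, neg_eq_zero] at h5
        refine Eq.trans ?_ h5
        exact intervalIntegral.integral_congr fun t _ => by ring
  have h1 := moments (h := fun t => g t * Real.cos (2 * t)) (by fun_prop) hT (fun k => by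
    refine Eq.trans ?_ (key k 2 (by norm_num)).1
    exact intervalIntegral.integral_congr fun t _ => by ring)
  have h2 := moments (h := fun t => g t * Real.sin (2 * t)) (by fun_prop) hT (fun k => by
    refine Eq.trans ?_ (key k 2 (by norm_num)).2
    exact intervalIntegral.integral_congr fun t _ => by ring)
  intro t ht
  have h3 := h1 t ht
  have h4 := h2 t ht
  have h5 := Real.sin_sq_add_cos_sq (2 * t)
  have h6 : g t ^ 2 = 0 := by
    linear_combination (g t * Real.cos (2 * t)) * h3 + (g t * Real.sin (2 * t)) * h4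
      - (g t ^ 2) * h5
  exact pow_eq_zero_iff (two_ne_zero) |>.1 h6

variable {v G : E n → ℝ → ℝ} {ρ : E n → ℝ}

lemma Good.vt_zero (H : Good v G ρ) (x : E n) : vt v G ρ x (2 * Real.pi) = 0 := by
  have h1 : ∀ δ : ℝ, 0 < δ → |vt v G ρ x (2 * Real.pi)| ≤ δ := by
    intro δ hδ
    obtain ⟨ε, hε, h⟩ := H.vt_small hδ
    exact h x (by rw [H.vanish.2 x]; exact hε.le)
  have h2 : |vt v G ρ x (2 * Real.pi)| ≤ 0 := le_of_forall_pos_le_add fun δ hδ => by
    rw [zero_add]; exact h1 δ hδ
  exact abs_nonpos_iff.1 h2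

/-- the coefficients with `a'' = - l² a` -/
lemma Good.coef (H : Good v G ρ) {a a' : ℝ → ℝ} {l : ℝ}
    (ha : ∀ s, HasDerivAt a (a' s) s) (ha' : ∀ s, HasDerivAt a' (-(l ^ 2) * a s) s) (x : E n) :
    ∫ t in (0:ℝ)..(2 * Real.pi), G x t * a t
      = (1 - l ^ 2) * ∫ t in (0:ℝ)..(2 * Real.pi), v x t * a t := by
  have hac : Continuous a := continuous_iff_continuousAt.2 fun s => (ha s).continuousAt
  have h1 := H.ibp x two_pi_nonneg two_pi_le ha ha' (continuous_const.mul hac)
  rw [H.vt_zero, H.vanish.2, H.vanish.1] at h1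
  have hG := cont_slice' H.cG x
  have hv := cont_slice' H.cv' x
  have i1 : IntervalIntegrable (fun t => G x t * a t) volume 0 (2 * Real.pi) :=
    (hG.mul hac).intervalIntegrable _ _
  have i2 : IntervalIntegrable (fun t => (1 - l ^ 2) * (v x t * a t)) volume 0 (2 * Real.pi) :=
    (continuous_const.mul (hv.mul hac)).intervalIntegrable _ _
  have h2 : ∫ s in (0:ℝ)..(2 * Real.pi), (G x s * a s - v x s * (-(l ^ 2) * a s + a s))
      = ∫ s in (0:ℝ)..(2 * Real.pi), (G x s * a s - (1 - l ^ 2) * (v x s * a s)) :=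
    intervalIntegral.integral_congr fun t _ => by ring
  rw [h2, intervalIntegral.integral_sub i1 i2, intervalIntegral.integral_const_mul] at h1
  linarith

lemma Good.coef_zero (H : Good v G ρ) {φ : E n → ℝ} (hφ : Avg φ) {a a' : ℝ → ℝ} {l : ℝ}
    (hl : 1 < l)
    (ha : ∀ s, HasDerivAt a (a' s) s) (ha' : ∀ s, HasDerivAt a' (-(l ^ 2) * a s) s)
    (hab : ∀ s, |a s| ≤ 1) (x : E n) :
    ∫ t in (0:ℝ)..(2 * Real.pi), av φ v x t * a t = 0 := by
  have hac : Continuous a := continuous_iff_continuousAt.2 fun s => (ha s).continuousAt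
  set f : E n → ℝ := fun x => ∫ t in (0:ℝ)..(2 * Real.pi), v x t * a t with hf
  have hgc : Continuous fun p : E n × ℝ => v p.1 p.2 * a p.2 := by
    have := H.cv'; fun_prop
  have hfc : Continuous f :=
    intervalIntegral.continuous_parametric_intervalIntegral_of_continuous' hgc _ _
  have h1 : ∀ ψ : E n → ℝ, TF ψ → ∀ x, cv ψ f x
      = ∫ t in (0:ℝ)..(2 * Real.pi), cv ψ (fun y => v y t) x * a t := by
    intro ψ hψ x
    rw [hf, cv_time hψ (g := fun y t => v y t * a t) hgc]
    refine intervalIntegral.integral_congr fun t _ => ?_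
    have : (fun y => v y t * a t) = fun y => a t * v y t := by ext y; ring
    simp only [this, cv_smul]; ring
  have H1 := H.avg hφ
  have h2 : ∀ x, cv (lap φ) f x = (l ^ 2 - 1) * cv φ f x := by
    intro x
    have h3 := H1.coef ha ha' x
    rw [h1 _ hφ.tf.lap, h1 _ hφ.tf]
    have h4 : ∫ t in (0:ℝ)..(2 * Real.pi), cv (lap φ) (fun y => v y t) x * a t
        = ∫ t in (0:ℝ)..(2 * Real.pi), -(av φ G x t * a t) := by
      refine intervalIntegral.integral_congr fun t _ => ?_
      have h5 : av φ G x t = -cv (lap φ) (fun y => v y t) x := H.weak φ hφ.tf t x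
      simp only [h5]; ring
    rw [h4, intervalIntegral.integral_neg, h3]
    simp only [av]
    ring
  obtain ⟨C, hC⟩ := H.bv
  have h3 : ∀ y, |f y| ≤ C * (2 * Real.pi) := fun y =>
    integral_le_of_bound two_pi_nonneg fun s _ => by
      rw [abs_mul]
      calc |v y s| * |a s| ≤ C * 1 :=
            mul_le_mul (hC y s) (hab s) (abs_nonneg _) ((abs_nonneg _).trans (hC y s))
        _ = C := mul_one _
  have h4 := cv_eq_zero hφ.tf hfc (fun x => cv_bound hφ.tf h3 x)
    (show 0 < l ^ 2 - 1 by nlinarith) h2 x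
  rw [h1 _ hφ.tf] at h4
  exact h4

theorem Good.zero (H : Good v G ρ) (x : E n) {t : ℝ} (ht : t ∈ Icc 0 (2 * Real.pi)) :
    v x t = 0 := by
  obtain ⟨K, hK⟩ := exists_ker n
  refine eq_zero_of_cv hK (cont_slice H.cv' t) x fun ε hε => ?_
  have hA := hK.avg hε
  have H1 := H.avg hA
  refine fourier_zero (g := fun t => av (sc ε K) v x t) (cont_slice' H1.cv' x)
    (by positivity) (fun l hl => ⟨?_, ?_⟩) t ht
  · refine H.coef_zero hA (a := fun s => Real.cos (l * s))
      (a' := fun s => -(l * Real.sin (l * s))) hl (fun s => ?_) (fun s => ?_)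
      (fun s => Real.abs_cos_le_one _) x
    · have h1 : HasDerivAt (fun s : ℝ => l * s) l s := by
        simpa using (hasDerivAt_id s).const_mul l
      refine h1.cos.congr_deriv ?_
      ring
    · have h1 : HasDerivAt (fun s : ℝ => l * s) l s := by
        simpa using (hasDerivAt_id s).const_mul l
      refine ((h1.sin).const_mul l).fun_neg.congr_deriv ?_
      ring
  · refine H.coef_zero hA (a := fun s => Real.sin (l * s))
      (a' := fun s => l * Real.cos (l * s)) hl (fun s => ?_) (fun s => ?_)
      (fun s => Real.abs_sin_le_one _) x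
    · have h1 : HasDerivAt (fun s : ℝ => l * s) l s := by
        simpa using (hasDerivAt_id s).const_mul l
      refine h1.sin.congr_deriv ?_
      ring
    · have h1 : HasDerivAt (fun s : ℝ => l * s) l s := by
        simpa using (hasDerivAt_id s).const_mul l
      refine ((h1.cos).const_mul l).congr_deriv ?_
      ring

end Pool.Agent.Q64.HS
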