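import Pool.Agent.Q64.HS.Omori

/-! # Admissible pairs and the basic estimate -/

namespace Pool.Agent.Q64.HS

open MeasureTheory Set Filter Topology
open scoped ContDiff Convolution

variable {n : ℕ}

/-- `v` solves `v_tt + v = G`, `v(·,0) = 0`, `v_t(·,0) = ρ` on `[0,7]`, `G = -Δ v`, and
`v + 1 - cos t ≥ 0`. -/
structure Good (v G : E n → ℝ → ℝ) (ρ : E n → ℝ) : Prop where
  cv' : Continuous fun p : E n × ℝ => v p.1 p.2
  cG : Continuous fun p : E n × ℝ => G p.1 p.2
  cρ : Continuous ρ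
  bv : ∃ C, ∀ x t, |v x t| ≤ C
  bG : ∃ C, ∀ x t, |G x t| ≤ C
  bρ : ∃ C, ∀ x, |ρ x| ≤ C
  ode : ∀ x t, 0 ≤ t → t ≤ 7 →
    v x t = t * ρ x + ∫ s in (0:ℝ)..t, (t - s) * (G x s - v x s)
  weak : ∀ φ, TF φ → ∀ t x, cv φ (fun y => G y t) x = -cv (lap φ) (fun y => v y t) x
  pos : ∀ x t, 0 ≤ t → t ≤ 7 → 0 ≤ v x t + (1 - Real.cos t)

/-- averaging in the tangential variables -/
noncomputable def av (φ : E n → ℝ) (v : E n → ℝ → ℝ) (x : E n) (t : ℝ) : ℝ :=
  cv φ (fun y => v y t) x

lemma cont_slice {v : E n → ℝ → ℝ} (h : Continuous fun p : E n × ℝ => v p.1 p.2) (t : ℝ) :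
    Continuous fun y => v y t := h.comp (f := fun y : E n => (y, t)) (by fun_prop)

lemma cont_slice' {v : E n → ℝ → ℝ} (h : Continuous fun p : E n × ℝ => v p.1 p.2) (x : E n) :
    Continuous (v x) := h.comp (f := fun t : ℝ => (x, t)) (by fun_prop)

lemma av_cont {φ : E n → ℝ} (hφ : TF φ) {v : E n → ℝ → ℝ}
    (h : Continuous fun p : E n × ℝ => v p.1 p.2) :
    Continuous fun p : E n × ℝ => av φ v p.1 p.2 := by
  have h1 := cv_cont_param (X := ℝ) hφ (f := fun t y => v y t)
    (h.comp (f := fun q : ℝ × E n => (q.2, q.1)) (by fun_prop))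
  exact h1.comp (f := fun p : E n × ℝ => (p.2, p.1)) (by fun_prop)

/-- admissible kernels -/
structure Avg (φ : E n → ℝ) : Prop where
  tf : TF φ
  nonneg : ∀ y, 0 ≤ φ y
  one : ∫ y, φ y = 1

lemma Ker.avg {K : E n → ℝ} (hK : Ker K) {R : ℝ} (hR : 0 < R) : Avg (sc R K) :=
  ⟨hK.tf.sc hR, fun y => mul_nonneg (by positivity) (hK.nonneg _), by
    rw [integral_sc _ hR, hK.one]⟩

lemma Good.avg {v G : E n → ℝ → ℝ} {ρ : E n → ℝ} (H : Good v G ρ) {φ : E n → ℝ} (hφ : Avg φ) :
    Good (av φ v) (av φ G) (cv φ ρ) where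
  cv' := av_cont hφ.tf H.cv'
  cG := av_cont hφ.tf H.cG
  cρ := cv_cont hφ.tf H.cρ
  bv := by
    obtain ⟨C, hC⟩ := H.bv
    exact ⟨_, fun x t => cv_bound hφ.tf (fun y => hC y t) x⟩
  bG := by
    obtain ⟨C, hC⟩ := H.bG
    exact ⟨_, fun x t => cv_bound hφ.tf (fun y => hC y t) x⟩
  bρ := by
    obtain ⟨C, hC⟩ := H.bρ
    exact ⟨_, fun x => cv_bound hφ.tf hC x⟩
  ode := by
    intro x t h0 h7
    have hg : Continuous (fun p : E n × ℝ => (t - p.2) * (G p.1 p.2 - v p.1 p.2)) := by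
      have := H.cG; have := H.cv'; fun_prop
    have h1 : (fun y => v y t) = fun y => t * ρ y +
        ∫ s in (0:ℝ)..t, (t - s) * (G y s - v y s) := by
      ext y; exact H.ode y t h0 h7
    have hI : Continuous fun y => ∫ s in (0:ℝ)..t, (t - s) * (G y s - v y s) := by
      refine intervalIntegral.continuous_parametric_intervalIntegral_of_continuous' ?_ _ _
      exact hg
    rw [av, h1, cv_add hφ.tf (f := fun y => t * ρ y) (continuous_const.mul H.cρ) hI, cv_smul,
      cv_time hφ.tf (g := fun y s => (t - s) * (G y s - v y s)) hg]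
    congr 1
    refine intervalIntegral.integral_congr fun s _ => ?_
    show cv φ (fun y => (t - s) * (G y s - v y s)) x = (t - s) * (av φ G x s - av φ v x s)
    rw [cv_smul, cv_sub hφ.tf (cont_slice H.cG s) (cont_slice H.cv' s)]
    rfl
  weak := by
    intro ψ hψ t x
    have h1 : cv ψ (cv φ fun y => G y t) x = cv φ (cv ψ fun y => G y t) x :=
      cv_comm hψ hφ.tf (cont_slice H.cG t) x
    have h2 : cv (lap ψ) (cv φ fun y => v y t) x = cv φ (cv (lap ψ) fun y => v y t) x :=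
      cv_comm hψ.lap hφ.tf (cont_slice H.cv' t) x
    have h3 : cv ψ (fun y => G y t) = fun x => (-1) * cv (lap ψ) (fun y => v y t) x := by
      ext x; rw [H.weak ψ hψ t x]; ring
    show cv ψ (cv φ fun y => G y t) x = -cv (lap ψ) (cv φ fun y => v y t) x
    rw [h1, h2, h3, cv_smul]; ring
  pos := by
    intro x t h0 h7
    have h1 : cv φ (fun y => v y t + (1 - Real.cos t)) x
        = cv φ (fun y => v y t) x + (1 - Real.cos t) := by
      rw [cv_add hφ.tf (cont_slice H.cv' t) continuous_const, cv_const hφ.one]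
    have h2 := cv_nonneg hφ.nonneg (f := fun y => v y t + (1 - Real.cos t))
      (fun y => H.pos y t h0 h7) x
    rw [h1] at h2
    exact h2

/-! ### time derivative -/

lemma hasDerivAt_dbl {h : ℝ → ℝ} (hh : Continuous h) (t : ℝ) :
    HasDerivAt (fun t : ℝ => ∫ s in (0:ℝ)..t, (t - s) * h s) (∫ s in (0:ℝ)..t, h s) t := by
  have h1 : ∀ t : ℝ, ∫ s in (0:ℝ)..t, (t - s) * h s
      = t * (∫ s in (0:ℝ)..t, h s) - ∫ s in (0:ℝ)..t, s * h s := by
    intro t
    rw [← intervalIntegral.integral_const_mul, ← intervalIntegral.integral_sub]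
    · refine intervalIntegral.integral_congr fun s _ => ?_
      ring
    · exact (continuous_const.mul hh).intervalIntegrable _ _
    · exact (continuous_id.mul hh).intervalIntegrable _ _
  simp_rw [h1]
  have h2 := (hh.integral_hasStrictDerivAt 0 t).hasDerivAt
  have h3 := ((continuous_id.mul hh).integral_hasStrictDerivAt 0 t).hasDerivAt
  have h4 := ((hasDerivAt_id t).fun_mul h2).fun_sub h3
  refine h4.congr_deriv ?_
  simp

variable {v G : E n → ℝ → ℝ} {ρ : E n → ℝ}

/-- `v` extended by its integral formula -/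
noncomputable def VV (v G : E n → ℝ → ℝ) (ρ : E n → ℝ) (x : E n) (t : ℝ) : ℝ :=
  t * ρ x + ∫ s in (0:ℝ)..t, (t - s) * (G x s - v x s)

noncomputable def vt (v G : E n → ℝ → ℝ) (ρ : E n → ℝ) (x : E n) (t : ℝ) : ℝ :=
  ρ x + ∫ s in (0:ℝ)..t, (G x s - v x s)

lemma Good.contd (H : Good v G ρ) (x : E n) : Continuous fun s => G x s - v x s :=
  (cont_slice' H.cG x).sub (cont_slice' H.cv' x)

lemma Good.hasDerivAt_VV (H : Good v G ρ) (x : E n) (t : ℝ) :
    HasDerivAt (VV v G ρ x) (vt v G ρ x t) t := by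
  have h1 := ((hasDerivAt_id t).mul_const (ρ x)).fun_add (hasDerivAt_dbl (H.contd x) t)
  refine h1.congr_deriv ?_
  simp [vt]

lemma Good.hasDerivAt_vt (H : Good v G ρ) (x : E n) (t : ℝ) :
    HasDerivAt (vt v G ρ x) (G x t - v x t) t := by
  have h1 := ((H.contd x).integral_hasStrictDerivAt 0 t).hasDerivAt.const_add (ρ x)
  exact h1

lemma Good.VV_eq (H : Good v G ρ) (x : E n) {t : ℝ} (h0 : 0 ≤ t) (h7 : t ≤ 7) :
    VV v G ρ x t = v x t := (H.ode x t h0 h7).symm

/-- multiplication of the equation by a function `a` and integration by parts -/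
lemma Good.ibp (H : Good v G ρ) (x : E n) {t : ℝ} (h0 : 0 ≤ t) (h7 : t ≤ 7) {a a' a'' : ℝ → ℝ}
    (ha : ∀ s, HasDerivAt a (a' s) s) (ha' : ∀ s, HasDerivAt a' (a'' s) s)
    (ha2 : Continuous a'') :
    vt v G ρ x t * a t - v x t * a' t = ρ x * a 0 +
      ∫ s in (0:ℝ)..t, (G x s * a s - v x s * (a'' s + a s)) := by
  have hac : Continuous a := continuous_iff_continuousAt.2 fun s => (ha s).continuousAt
  have h1 : ∀ s, HasDerivAt (fun s => vt v G ρ x s * a s - VV v G ρ x s * a' s)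
      ((G x s - v x s) * a s - VV v G ρ x s * a'' s) s := by
    intro s
    have h2 := ((H.hasDerivAt_vt x s).fun_mul (ha s)).fun_sub
      ((H.hasDerivAt_VV x s).fun_mul (ha' s))
    refine h2.congr_deriv ?_
    ring
  have hVc : Continuous (VV v G ρ x) :=
    continuous_iff_continuousAt.2 fun s => (H.hasDerivAt_VV x s).continuousAt
  have h2 := intervalIntegral.integral_eq_sub_of_hasDerivAt (fun s _ => h1 s)
    ((((H.contd x).mul hac).sub (hVc.mul ha2)).intervalIntegrable 0 t)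
  have h3 : ∫ s in (0:ℝ)..t, ((G x s - v x s) * a s - VV v G ρ x s * a'' s)
      = ∫ s in (0:ℝ)..t, (G x s * a s - v x s * (a'' s + a s)) := by
    refine intervalIntegral.integral_congr fun s hs => ?_
    rw [uIcc_of_le h0] at hs
    rw [H.VV_eq x hs.1 (hs.2.trans h7)]; ring
  rw [h3, H.VV_eq x h0 h7, H.VV_eq x le_rfl (by norm_num)] at h2
  have h4 : v x 0 = 0 := by
    have := H.ode x 0 le_rfl (by norm_num)
    simpa using this
  have h5 : vt v G ρ x 0 = ρ x := by simp [vt]
  rw [h4, h5] at h2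
  linarith

lemma Good.I1 (H : Good v G ρ) (x : E n) {t : ℝ} (h0 : 0 ≤ t) (h7 : t ≤ 7) :
    vt v G ρ x t * Real.sin t - v x t * Real.cos t = ∫ s in (0:ℝ)..t, G x s * Real.sin s := by
  have := H.ibp x h0 h7 (a := Real.sin) (a' := Real.cos) (a'' := fun s => -Real.sin s)
    (fun s => Real.hasDerivAt_sin s) (fun s => Real.hasDerivAt_cos s) (by fun_prop)
  simpa using this

lemma Good.I2 (H : Good v G ρ) (x : E n) {t : ℝ} (h0 : 0 ≤ t) (h7 : t ≤ 7) :
    vt v G ρ x t * Real.cos t + v x t * Real.sin t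
      = ρ x + ∫ s in (0:ℝ)..t, G x s * Real.cos s := by
  have := H.ibp x h0 h7 (a := Real.cos) (a' := fun s => -Real.sin s)
    (a'' := fun s => -Real.cos s)
    (fun s => Real.hasDerivAt_cos s) (fun s => (Real.hasDerivAt_sin s).fun_neg) (by fun_prop)
  simpa using this

lemma Good.rho_nonneg (H : Good v G ρ) (x : E n) : 0 ≤ ρ x := by
  have h1 : HasDerivAt (fun t => VV v G ρ x t + (1 - Real.cos t)) (ρ x) 0 := by
    have h2 := (H.hasDerivAt_VV x 0).fun_add ((Real.hasDerivAt_cos 0).const_sub 1)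
    refine h2.congr_deriv ?_
    simp [vt]
  have h2 := (hasDerivAt_iff_tendsto_slope.1 h1).mono_left
    (nhdsWithin_mono 0 (s := Ioi 0) fun s hs => ne_of_gt hs)
  refine ge_of_tendsto h2 ?_
  have h3 : ∀ᶠ t in 𝓝[>] (0:ℝ), t ≤ 7 :=
    (eventually_le_nhds (by norm_num)).filter_mono nhdsWithin_le_nhds
  filter_upwards [h3, self_mem_nhdsWithin] with t ht ht0
  have ht0' : (0:ℝ) < t := ht0
  rw [slope_def_field, H.VV_eq x ht0'.le ht, H.VV_eq x le_rfl (by norm_num)]
  have h4 : v x 0 = 0 := by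
    have := H.ode x 0 le_rfl (by norm_num)
    simpa using this
  have h5 := H.pos x t ht0'.le ht
  rw [h4]
  simp only [Real.cos_zero, sub_zero, sub_self, add_zero]
  positivity

lemma two_pi_lt : 2 * Real.pi < 6.3 := by linarith [Real.pi_lt_d2]

lemma two_pi_le : 2 * Real.pi ≤ 7 := by linarith [two_pi_lt]

lemma two_pi_nonneg : 0 ≤ 2 * Real.pi := by positivity

/-- the Taylor estimate at `t = 2π` -/
lemma Good.vt_small (H : Good v G ρ) {δ : ℝ} (hδ : 0 < δ) :
    ∃ ε : ℝ, 0 < ε ∧ ∀ x, v x (2 * Real.pi) ≤ ε → |vt v G ρ x (2 * Real.pi)| ≤ δ := by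
  obtain ⟨C1, hC1⟩ := H.bv
  obtain ⟨C2, hC2⟩ := H.bG
  set B : ℝ := |C1| + |C2| with hB
  have hB0 : 0 ≤ B := by positivity
  have hGv : ∀ x s, |G x s - v x s| ≤ B := fun x s => by
    have h1 := hC1 x s; have h2 := hC2 x s
    have := abs_sub (G x s) (v x s)
    linarith [le_abs_self C1, le_abs_self C2]
  set η : ℝ := min (1/2) (δ / (2 * (B + 1))) with hη
  have hη0 : 0 < η := by positivity
  have hη1 : η ≤ 1/2 := min_le_left _ _
  have hη2 : (B + 1) * η ≤ δ / 2 := by
    have : η ≤ δ / (2 * (B + 1)) := min_le_right _ _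
    calc (B + 1) * η ≤ (B + 1) * (δ / (2 * (B + 1))) := by gcongr
      _ = δ / 2 := by field_simp
  refine ⟨η * (δ / 2), by positivity, fun x hx => ?_⟩
  set T := 2 * Real.pi with hT
  have hT0 : (6.28 : ℝ) < T := by have := Real.pi_gt_d2; rw [hT]; linarith
  have hT1 : T < 6.3 := two_pi_lt
  -- Lipschitz bound of vt
  have hlip : ∀ s, |vt v G ρ x s - vt v G ρ x T| ≤ B * |s - T| := by
    intro s
    have := (convex_univ (𝕜 := ℝ) (E := ℝ)).norm_image_sub_le_of_norm_hasDerivWithin_le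
      (f := vt v G ρ x) (f' := fun s => G x s - v x s) (C := B)
      (fun s _ => (H.hasDerivAt_vt x s).hasDerivWithinAt) (fun s _ => hGv x s)
      (mem_univ T) (mem_univ s)
    simpa [Real.norm_eq_abs] using this
  have key : ∀ h : ℝ, |h| = η → 0 ≤ v x T + h * vt v G ρ x T + (B + 1) * η ^ 2 := by
    intro h hh
    have hh0 : h ≠ 0 := by
      intro h0; rw [h0, abs_zero] at hh; linarith
    have hh1 : |h| ≤ 1/2 := by rw [hh]; exact hη1
    have hh2 := abs_le.1 hh1
    have hpos := H.pos x (T + h) (by linarith) (by linarith)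
    -- mean value
    have hmv : |VV v G ρ x (T + h) - VV v G ρ x T - h * vt v G ρ x T| ≤ B * η * η := by
      have h1 := (convex_uIcc T (T + h)).norm_image_sub_le_of_norm_hasDerivWithin_le
        (f := fun s => VV v G ρ x s - s * vt v G ρ x T)
        (f' := fun s => vt v G ρ x s - 1 * vt v G ρ x T) (C := B * η)
        (fun s _ => ((H.hasDerivAt_VV x s).fun_sub
          ((hasDerivAt_id s).mul_const _)).hasDerivWithinAt)
        (fun s hs => by
          rw [one_mul, Real.norm_eq_abs]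
          refine (hlip s).trans (mul_le_mul_of_nonneg_left ?_ hB0)
          have := abs_sub_left_of_mem_uIcc hs
          rw [add_sub_cancel_left, hh] at this
          exact this)
        left_mem_uIcc right_mem_uIcc
      rw [Real.norm_eq_abs, Real.norm_eq_abs, add_sub_cancel_left, hh] at h1
      have h2 : VV v G ρ x (T + h) - (T + h) * vt v G ρ x T
          - (VV v G ρ x T - T * vt v G ρ x T)
          = VV v G ρ x (T + h) - VV v G ρ x T - h * vt v G ρ x T := by ring
      rw [h2] at h1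
      exact h1
    rw [H.VV_eq x (by linarith) (by linarith), H.VV_eq x (by linarith) (by linarith)] at hmv
    have h3 := (abs_le.1 hmv).2
    have h4 : 1 - Real.cos (T + h) ≤ η ^ 2 := by
      rw [hT, add_comm, Real.cos_add_two_pi]
      have h5 := Real.one_sub_sq_div_two_le_cos (x := h)
      have h6 : h ^ 2 = η ^ 2 := by rw [← sq_abs, hh]
      nlinarith [sq_nonneg η]
    nlinarith
  have k1 := key η (abs_of_pos hη0)
  have k2 := key (-η) (by rw [abs_neg, abs_of_pos hη0])
  rw [abs_le]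
  have h3 : (B + 1) * η ^ 2 ≤ η * (δ / 2) := by nlinarith
  constructor
  · have h4 : 0 ≤ η * (δ + vt v G ρ x T) := by nlinarith
    have := nonneg_of_mul_nonneg_right h4 hη0
    linarith
  · have h4 : 0 ≤ η * (δ - vt v G ρ x T) := by nlinarith
    have := nonneg_of_mul_nonneg_right h4 hη0
    linarith

lemma integral_le_of_bound {h : ℝ → ℝ} {t δ : ℝ} (h0 : 0 ≤ t)
    (hb : ∀ s ∈ Icc 0 t, |h s| ≤ δ) : |∫ s in (0:ℝ)..t, h s| ≤ δ * t := by
  have h1 := intervalIntegral.norm_integral_le_of_norm_le_const (a := 0) (b := t) (f := h) (C := δ)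
    (fun s hs => by
      rw [uIoc_of_le h0] at hs
      exact hb s ⟨hs.1.le, hs.2⟩)
  rw [sub_zero, abs_of_nonneg h0] at h1
  exact h1

end Pool.Agent.Q64.HS
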