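import Pool.Agent.Q64.HS.Conv

/-! # Averages: integration by parts, Laplacian of averages, time integrals -/

namespace Pool.Agent.Q64.HS

open MeasureTheory Set Filter Topology
open scoped ContDiff Convolution

variable {n : ℕ}

lemma ibp {φ G : E n → ℝ} (hφ : TF φ) (hG : ContDiff ℝ 1 G) (x : E n) (i : Fin n) :
    cv φ (pd i G) x = -cv (pd i φ) G x := by
  have hGx : ContDiff ℝ 1 (fun y => G (x + y)) := hG.comp (contDiff_const.add contDiff_id)
  have hd : ∀ y, fderiv ℝ (fun y => G (x + y)) y = fderiv ℝ G (x + y) :=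
    fun y => fderiv_comp_add_left x
  have hGc : Continuous (pd i G) := by
    have := hG.continuous_fderiv one_ne_zero
    exact this.clm_apply continuous_const
  have key := integral_mul_fderiv_eq_neg_fderiv_mul_of_integrable (μ := volume)
    (f := φ) (g := fun y => G (x + y)) (v := ee i)
    (cv_int (hφ.pd i) hG.continuous x)
    (by simp_rw [hd]; exact cv_int hφ hGc x)
    (cv_int hφ hG.continuous x)
    (fun y _ => (hφ.smooth.differentiable (by simp)).differentiableAt)
    (fun y _ => (hGx.differentiable one_ne_zero).differentiableAt)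
  simp_rw [hd] at key
  exact key

lemma cv_lap {φ F : E n → ℝ} (hφ : TF φ) (hF : ContDiff ℝ 2 F) (x : E n) :
    cv φ (lap F) x = cv (lap φ) F x := by
  have h1 : ∀ i, ContDiff ℝ 1 (pd i F) := fun i => by
    have := hF.fderiv_right (m := 1) (by norm_num)
    exact this.clm_apply contDiff_const
  have h2 : ∀ i, Continuous (pd i (pd i F)) := fun i => by
    have := (h1 i).continuous_fderiv one_ne_zero
    exact this.clm_apply continuous_const
  have h3 : cv φ (lap F) x = ∑ i, cv φ (pd i (pd i F)) x := by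
    simp only [cv, lap]
    rw [← integral_finsetSum _ fun i _ => cv_int hφ (h2 i) x]
    congr 1; ext y; rw [Finset.mul_sum]
  rw [h3, lap_eq φ, cv_sum_left _ (fun i _ => (hφ.pd i).pd i) hF.continuous]
  refine Finset.sum_congr rfl fun i _ => ?_
  rw [ibp hφ (h1 i), ibp (hφ.pd i) (hF.of_le (by norm_num)), neg_neg]

lemma contDiff_cv {φ f : E n → ℝ} (hφ : TF φ) (hf : Continuous f) : ContDiff ℝ ∞ (cv φ f) := by
  have hc : HasCompactSupport (fun y : E n => φ (-y)) := by
    have := hφ.cpt.comp_homeomorph (Homeomorph.neg (E n))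
    exact this
  have hs : ContDiff ℝ ∞ (fun y : E n => φ (-y)) := hφ.smooth.comp contDiff_neg
  have key := hc.contDiff_convolution_right (ContinuousLinearMap.mul ℝ ℝ) (μ := volume)
    (hf.locallyIntegrable) hs
  have hcv : cv φ f = (f ⋆[ContinuousLinearMap.mul ℝ ℝ, volume] fun y => φ (-y)) := by
    ext z
    rw [cv_eq, convolution_def]
    congr 1; ext y
    simp only [ContinuousLinearMap.mul_apply']
    rw [neg_sub, mul_comm]
  rw [hcv]; exact key

lemma pd_cv' {φ : E n → ℝ} (hφ : TF φ) {f : E n → ℝ} (hf : Continuous f) (i : Fin n) :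
    pd i (cv φ f) = fun x => -cv (pd i φ) f x := by
  ext x
  exact pd_cv hφ hf (fun y => ((contDiff_cv hφ hf).differentiable (by simp)).differentiableAt) x i

lemma pd_neg (i : Fin n) (f : E n → ℝ) : pd i (fun x => -f x) = fun x => -pd i f x := by
  ext x; simp [pd, fderiv_fun_neg]

lemma lap_cv {φ : E n → ℝ} (hφ : TF φ) {f : E n → ℝ} (hf : Continuous f) :
    lap (cv φ f) = cv (lap φ) f := by
  ext x
  rw [lap_eq φ, cv_sum_left _ (fun i _ => (hφ.pd i).pd i) hf, lap]
  refine Finset.sum_congr rfl fun i _ => ?_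
  rw [pd_cv' hφ hf, pd_neg, pd_cv' (hφ.pd i) hf]
  exact neg_neg _

lemma cv_lap_swap {φ ψ : E n → ℝ} (hφ : TF φ) (hψ : TF ψ) {f : E n → ℝ} (hf : Continuous f)
    (x : E n) : cv (lap φ) (cv ψ f) x = cv (lap ψ) (cv φ f) x := by
  have h2 : ContDiff ℝ 2 (cv ψ f) := by
    have := contDiff_infty.1 (contDiff_cv hψ hf) 2
    exact_mod_cast this
  rw [← cv_lap hφ h2, lap_cv hψ hf, cv_comm hφ hψ.lap hf]

/-- averages commute with time integrals -/
lemma cv_time {φ : E n → ℝ} (hφ : TF φ) {g : E n → ℝ → ℝ}
    (hg : Continuous (fun p : E n × ℝ => g p.1 p.2)) (a b : ℝ) (x : E n) :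
    cv φ (fun y => ∫ s in a..b, g y s) x = ∫ s in a..b, cv φ (fun y => g y s) x := by
  simp only [cv]
  rw [intervalIntegral_integral_swap]
  · congr 1; ext y; rw [intervalIntegral.integral_const_mul]
  · have h1 : Continuous (Function.uncurry fun (s : ℝ) (y : E n) => φ y * g (x + y) s) := by
      have h2 : Continuous (fun q : ℝ × E n => g (x + q.2) q.1) :=
        hg.comp (f := fun q : ℝ × E n => (x + q.2, q.1)) (by fun_prop)
      exact (hφ.cont.comp continuous_snd).mul h2
    have h3 : IntegrableOn (Function.uncurry fun (s : ℝ) (y : E n) => φ y * g (x + y) s)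
        (uIcc a b ×ˢ tsupport φ) (volume.prod volume) :=
      h1.continuousOn.integrableOn_compact (isCompact_uIcc.prod hφ.cpt.isCompact)
    have h4 : IntegrableOn (Function.uncurry fun (s : ℝ) (y : E n) => φ y * g (x + y) s)
        (uIoc a b ×ˢ univ) (volume.prod volume) := by
      refine (h3.of_forall_sdiff_eq_zero (t := uIcc a b ×ˢ univ) ?_ ?_).mono_set
        (prod_mono uIoc_subset_uIcc (subset_refl _))
      · exact measurableSet_uIcc.prod MeasurableSet.univ
      · rintro ⟨s, y⟩ ⟨h5, h6⟩
        have : y ∉ tsupport φ := fun h7 => h6 ⟨h5.1, h7⟩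
        simp [image_eq_zero_of_notMem_tsupport this]
    rw [IntegrableOn, ← Measure.prod_restrict, Measure.restrict_univ] at h4
    exact h4

end Pool.Agent.Q64.HS
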