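import Pool.Agent.Q64.HS.Green

/-! # Omori–Yau, scaled kernels -/

namespace Pool.Agent.Q64.HS

open MeasureTheory Set Filter Topology
open scoped ContDiff Convolution

variable {n : ℕ}

lemma norm_ee (i : Fin n) : ‖(ee i : E n)‖ = 1 := by simp [ee]

lemma second_nonpos {r r' : ℝ → ℝ} {r2 : ℝ} (h : ∀ s, HasDerivAt r (r' s) s)
    (h2 : HasDerivAt r' r2 0) (hmax : ∀ s, r s ≤ r 0) : r2 ≤ 0 := by
  by_contra hcon
  push Not at hcon
  have h0 : r' 0 = 0 := by
    have : IsLocalMax r 0 := Eventually.of_forall hmax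
    exact this.hasDerivAt_eq_zero (h 0)
  have h3 := hasDerivAt_iff_tendsto_slope.1 h2
  have h4 : ∀ᶠ s in 𝓝[≠] (0:ℝ), 0 < slope r' 0 s := h3.eventually (lt_mem_nhds hcon)
  rw [eventually_nhdsWithin_iff, Metric.eventually_nhds_iff] at h4
  obtain ⟨δ, hδ, h5⟩ := h4
  obtain ⟨c, hc, h6⟩ := exists_hasDerivAt_eq_slope r r' (show (0:ℝ) < δ / 2 by positivity)
    (fun s _ => (h s).continuousAt.continuousWithinAt) (fun s _ => h s)
  have h7 := h5 (y := c) (by rw [Real.dist_eq, sub_zero, abs_of_pos hc.1]; linarith [hc.2])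
    (by simpa using hc.1.ne')
  rw [slope_def_field, h0, sub_zero, sub_zero] at h7
  have h8 : 0 < r' c := by
    have := mul_pos h7 hc.1
    rwa [div_mul_cancel₀ _ hc.1.ne'] at this
  rw [h6] at h8
  have h9 : 0 < r (δ / 2) - r 0 := by
    have := mul_pos h8 (show (0:ℝ) < δ / 2 - 0 by linarith)
    rwa [div_mul_cancel₀ _ (by linarith : (δ / 2 - 0) ≠ 0)] at this
  linarith [hmax (δ / 2)]

lemma hasDerivAt_normsq (x : E n) (i : Fin n) (s : ℝ) :
    HasDerivAt (fun s : ℝ => ‖x + s • ee i‖ ^ 2) (2 * inner ℝ x (ee i) + 2 * s) s := by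
  have h1 : ∀ s : ℝ, ‖x + s • ee i‖ ^ 2 = ‖x‖ ^ 2 + 2 * (s * inner ℝ x (ee i)) + s ^ 2 := by
    intro s
    rw [norm_add_sq_real, real_inner_smul_right, norm_smul, norm_ee, mul_one, Real.norm_eq_abs,
      sq_abs]
  simp_rw [h1]
  have h2 : HasDerivAt (fun s : ℝ => ‖x‖ ^ 2 + 2 * (s * inner ℝ x (ee i)) + s ^ 2)
      (2 * (1 * inner ℝ x (ee i)) + 2 * s) s := by
    have h3 := (((hasDerivAt_id s).mul_const (inner ℝ x (ee i))).const_mul 2).const_add (‖x‖ ^ 2)
    have h4 := hasDerivAt_pow 2 s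
    have h5 := h3.fun_add h4
    refine h5.congr_deriv ?_
    simp
  simpa using h2

lemma omori {b : E n → ℝ} (hb : Continuous b) {C : ℝ} (hC : ∀ x, b x ≤ C)
    {d1 d2 : Fin n → E n → ℝ}
    (h1 : ∀ x i s, HasDerivAt (fun s : ℝ => b (x + s • ee i)) (d1 i (x + s • ee i)) s)
    (h2 : ∀ x i s, HasDerivAt (fun s : ℝ => d1 i (x + s • ee i)) (d2 i (x + s • ee i)) s)
    (x1 : E n) {ε : ℝ} (hε : 0 < ε) :
    ∃ x, b x1 - ε ≤ b x ∧ ∑ i, d2 i x ≤ ε := by
  set η : ℝ := ε / (‖x1‖ ^ 2 + 2 * n + 1) with hη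
  have hden : 0 < ‖x1‖ ^ 2 + 2 * (n : ℝ) + 1 := by positivity
  have hη0 : 0 < η := by positivity
  have hηe : η * (‖x1‖ ^ 2 + 2 * n + 1) = ε := by rw [hη]; field_simp
  set q : E n → ℝ := fun x => b x - η * ‖x‖ ^ 2 with hq
  have hqc : Continuous q := by fun_prop
  obtain ⟨R, hR1, hR2⟩ : ∃ R : ℝ, ‖x1‖ ≤ R ∧ C - q x1 < η * R ^ 2 := by
    refine ⟨max ‖x1‖ (1 + |C - q x1| / η), le_max_left _ _, ?_⟩
    set R := max ‖x1‖ (1 + |C - q x1| / η) with hR
    have h3 : 1 + |C - q x1| / η ≤ R := le_max_right _ _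
    have h4 : 0 ≤ |C - q x1| / η := by positivity
    have h5 : R ≤ R ^ 2 := by nlinarith
    have h6 : η * (1 + |C - q x1| / η) ≤ η * R ^ 2 :=
      mul_le_mul_of_nonneg_left (h3.trans h5) hη0.le
    have h7 : η * (1 + |C - q x1| / η) = η + |C - q x1| := by field_simp
    linarith [le_abs_self (C - q x1)]
  obtain ⟨x0, hx0, hmax⟩ := (isCompact_closedBall (0 : E n) R).exists_isMaxOn
    ⟨x1, by simpa using hR1⟩ hqc.continuousOn
  have hall : ∀ x, q x ≤ q x0 := by
    intro x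
    by_cases hx : ‖x‖ ≤ R
    · exact hmax (by simpa using hx)
    · push Not at hx
      have hRn : 0 ≤ R := (norm_nonneg x1).trans hR1
      have h3 : η * R ^ 2 ≤ η * ‖x‖ ^ 2 :=
        mul_le_mul_of_nonneg_left (by nlinarith) hη0.le
      have h4 : q x ≤ q x1 := by
        have : q x = b x - η * ‖x‖ ^ 2 := rfl
        linarith [hC x]
      exact h4.trans (hmax (by simpa using hR1))
  refine ⟨x0, ?_, ?_⟩
  · have h3 := hall x1
    have h4 : q x1 = b x1 - η * ‖x1‖ ^ 2 := rfl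
    have h5 : q x0 = b x0 - η * ‖x0‖ ^ 2 := rfl
    have h6 : 0 ≤ η * ‖x0‖ ^ 2 := by positivity
    have h7 : η * ‖x1‖ ^ 2 ≤ ε := by nlinarith
    linarith
  · have h3 : ∀ i, d2 i x0 ≤ 2 * η := by
      intro i
      have h4 : ∀ s, HasDerivAt (fun s : ℝ => q (x0 + s • ee i))
          (d1 i (x0 + s • ee i) - η * (2 * inner ℝ x0 (ee i) + 2 * s)) s := fun s =>
        (h1 x0 i s).fun_sub ((hasDerivAt_normsq x0 i s).const_mul η)
      have h5 : HasDerivAt (fun s : ℝ => d1 i (x0 + s • ee i)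
          - η * (2 * inner ℝ x0 (ee i) + 2 * s)) (d2 i x0 - 2 * η) 0 := by
        have h6 := h2 x0 i 0
        have h7 : HasDerivAt (fun s : ℝ => η * (2 * inner ℝ x0 (ee i) + 2 * s)) (η * (2 * 1)) 0 :=
          (((hasDerivAt_id (0:ℝ)).const_mul 2).const_add _).const_mul η
        have h8 := h6.fun_sub h7
        refine h8.congr_deriv ?_
        simp; ring
      have h6 := second_nonpos h4 h5 (fun s => by simpa using hall _)
      linarith
    have h4 : ∑ i : Fin n, d2 i x0 ≤ ∑ _i : Fin n, 2 * η := Finset.sum_le_sum fun i _ => h3 i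
    simp only [Finset.sum_const, Finset.card_univ, Fintype.card_fin, nsmul_eq_mul] at h4
    have h5 : (n : ℝ) * (2 * η) ≤ ε := by
      have : 0 ≤ η * (‖x1‖ ^ 2 + 1) := by positivity
      nlinarith
    linarith

/-- Omori–Yau for averages. -/
lemma omori_cv {φ f : E n → ℝ} (hφ : TF φ) (hf : Continuous f) {C : ℝ}
    (hC : ∀ x, cv φ f x ≤ C) (x1 : E n) {ε : ℝ} (hε : 0 < ε) :
    ∃ x, cv φ f x1 - ε ≤ cv φ f x ∧ cv (lap φ) f x ≤ ε := by
  obtain ⟨x, hx1, hx2⟩ := omori (cv_cont hφ hf) hC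
    (d1 := fun i x => -cv (pd i φ) f x) (d2 := fun i x => cv (pd i (pd i φ)) f x)
    (fun x i s => hasDerivAt_cv hφ hf x i s) (fun x i s => hasDerivAt_cv2 hφ hf x i s) x1 hε
  refine ⟨x, hx1, ?_⟩
  rw [lap_eq φ, cv_sum_left _ (fun i _ => (hφ.pd i).pd i) hf]
  exact hx2

/-- A bounded average `h` with `Δ h = c h`, `c > 0`, has no positive values. -/
lemma cv_eq_zero {φ f : E n → ℝ} (hφ : TF φ) (hf : Continuous f) {C : ℝ}
    (hC : ∀ x, |cv φ f x| ≤ C) {c : ℝ} (hc : 0 < c)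
    (hl : ∀ x, cv (lap φ) f x = c * cv φ f x) (x : E n) : cv φ f x = 0 := by
  have key : ∀ g : E n → ℝ, Continuous g → (∀ x, |cv φ g x| ≤ C) →
      (∀ x, cv (lap φ) g x = c * cv φ g x) → ∀ x, cv φ g x ≤ 0 := by
    intro g hg hgC hgl x
    by_contra hcon
    push Not at hcon
    obtain ⟨y, hy1, hy2⟩ := omori_cv hφ hg (fun x => (le_abs_self _).trans (hgC x)) x
      (ε := min (cv φ g x / 2) (c * (cv φ g x / 4))) (by positivity)
    rw [hgl] at hy2
    have h1 : min (cv φ g x / 2) (c * (cv φ g x / 4)) ≤ cv φ g x / 2 := min_le_left _ _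
    have h2 : min (cv φ g x / 2) (c * (cv φ g x / 4)) ≤ c * (cv φ g x / 4) := min_le_right _ _
    have h3 : cv φ g x / 2 ≤ cv φ g y := by linarith
    have h4 : c * (cv φ g x / 2) ≤ c * cv φ g y := mul_le_mul_of_nonneg_left h3 hc.le
    nlinarith
  have hneg : ∀ (ψ : E n → ℝ) (x : E n), cv ψ (fun y => -f y) x = -cv ψ f x := by
    intro ψ x
    have := cv_smul ψ f (-1) x
    simpa using this
  have h1 := key f hf hC hl x
  have h2 := key (fun y => -f y) hf.neg (fun x => by rw [hneg, abs_neg]; exact hC x)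
    (fun x => by rw [hneg, hneg, hl]; ring) x
  rw [hneg] at h2
  linarith

/-! ### scaled kernels -/

noncomputable def sc (R : ℝ) (K : E n → ℝ) (y : E n) : ℝ := (R ^ n)⁻¹ * K (R⁻¹ • y)

lemma pd_sc {K : E n → ℝ} (hK : Differentiable ℝ K) (R : ℝ) (i : Fin n) :
    pd i (sc R K) = fun y => R⁻¹ * sc R (pd i K) y := by
  ext y
  have h1 : HasFDerivAt (fun y : E n => R⁻¹ • y) (R⁻¹ • ContinuousLinearMap.id ℝ (E n)) y :=
    (hasFDerivAt_id y).const_smul R⁻¹
  have h2 : HasFDerivAt (fun y => K (R⁻¹ • y))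
      ((fderiv ℝ K (R⁻¹ • y)).comp (R⁻¹ • ContinuousLinearMap.id ℝ (E n))) y :=
    (hK.differentiableAt.hasFDerivAt).comp y h1
  have h3 := h2.const_mul ((R ^ n)⁻¹)
  have h4 : fderiv ℝ (sc R K) y = (R ^ n)⁻¹ •
      ((fderiv ℝ K (R⁻¹ • y)).comp (R⁻¹ • ContinuousLinearMap.id ℝ (E n))) := h3.fderiv
  rw [pd, h4]
  simp [sc, pd]
  ring

lemma TF.sc {K : E n → ℝ} (hK : TF K) {R : ℝ} (hR : 0 < R) : TF (sc R K) := by
  refine ⟨?_, ?_⟩
  · exact contDiff_const.mul (hK.smooth.comp (contDiff_const_smul R⁻¹))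
  · have h1 : HasCompactSupport (fun y : E n => K (R⁻¹ • y)) :=
      hK.cpt.comp_homeomorph (Homeomorph.smulOfNeZero R⁻¹ (inv_ne_zero hR.ne'))
    exact h1.mul_left

lemma pd_const_mul {f : E n → ℝ} (hf : Differentiable ℝ f) (c : ℝ) (i : Fin n) :
    pd i (fun y => c * f y) = fun y => c * pd i f y := by
  ext y
  rw [pd, fderiv_const_mul hf.differentiableAt]
  simp [pd]

lemma lap_sc {K : E n → ℝ} (hK : TF K) {R : ℝ} (hR : 0 < R) :
    lap (sc R K) = fun y => (R ^ 2)⁻¹ * sc R (lap K) y := by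
  have hd : ∀ {f : E n → ℝ}, TF f → Differentiable ℝ f := fun h =>
    h.smooth.differentiable (by simp)
  have h1 : ∀ i, pd i (pd i (sc R K)) = fun y => R⁻¹ * (R⁻¹ * sc R (pd i (pd i K)) y) := by
    intro i
    rw [pd_sc (hd hK), pd_const_mul (hd ((hK.pd i).sc hR)), pd_sc (hd (hK.pd i))]
  ext y
  simp only [lap, h1]
  simp only [sc, lap, Finset.mul_sum]
  refine Finset.sum_congr rfl fun i _ => ?_
  field_simp

lemma integral_sc (K : E n → ℝ) {R : ℝ} (hR : 0 < R) : ∫ y, sc R K y = ∫ y, K y := by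
  simp only [sc]
  rw [integral_const_mul, Measure.integral_comp_inv_smul volume K R]
  have : Module.finrank ℝ (E n) = n := by simp [E]
  rw [this, abs_of_pos (by positivity), smul_eq_mul]
  field_simp

lemma L1_lap_sc {K : E n → ℝ} (hK : TF K) {R : ℝ} (hR : 0 < R) :
    ∫ y, |lap (sc R K) y| = (R ^ 2)⁻¹ * ∫ y, |lap K y| := by
  rw [lap_sc hK hR]
  have h1 : ∀ y, |(R ^ 2)⁻¹ * sc R (lap K) y| = (R ^ 2)⁻¹ * sc R (fun y => |lap K y|) y := by
    intro y
    rw [abs_mul, abs_of_pos (by positivity : 0 < (R ^ 2)⁻¹)]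
    simp only [sc]
    rw [abs_mul, abs_of_pos (by positivity : 0 < (R ^ n)⁻¹)]
  simp_rw [h1]
  rw [integral_const_mul, integral_sc _ hR]

/-- A mollifier: nonnegative, integral one, supported in the unit ball. -/
structure Ker (K : E n → ℝ) : Prop where
  tf : TF K
  nonneg : ∀ y, 0 ≤ K y
  one : ∫ y, K y = 1
  supp : ∀ y, 1 < ‖y‖ → K y = 0

lemma exists_ker (n : ℕ) : ∃ K : E n → ℝ, Ker K := by
  let f : ContDiffBump (0 : E n) := ⟨1 / 2, 1, by norm_num, by norm_num⟩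
  refine ⟨f.normed volume, ⟨⟨f.contDiff_normed, f.hasCompactSupport_normed⟩,
    fun y => f.nonneg_normed y, f.integral_normed, fun y hy => ?_⟩⟩
  have h1 : y ∉ tsupport (f.normed volume) := by
    rw [f.tsupport_normed_eq]
    simp only [Metric.mem_closedBall, dist_zero_right, not_le]
    exact hy
  exact image_eq_zero_of_notMem_tsupport h1

lemma cv_sc_eq {K f : E n → ℝ} {R : ℝ} (hR : 0 < R) (x : E n) :
    cv (sc R K) f x = ∫ y, K y * f (x + R • y) := by
  have h1 : ∀ y, sc R K y * f (x + y) = sc R (fun z => K z * f (x + R • z)) y := by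
    intro y
    simp only [sc]
    rw [smul_smul, mul_inv_cancel₀ hR.ne', one_smul]
    ring
  simp only [cv]
  simp_rw [h1]
  exact integral_sc _ hR

/-- small averages recover the function -/
lemma eq_zero_of_cv {K f : E n → ℝ} (hK : Ker K) (hf : Continuous f) (x : E n)
    (h : ∀ ε : ℝ, 0 < ε → cv (sc ε K) f x = 0) : f x = 0 := by
  by_contra hne
  obtain ⟨δ, hδ, h1⟩ := Metric.continuous_iff.1 hf x (|f x| / 2) (by positivity)
  have h2 := h (δ / 2) (by positivity)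
  have h3 : cv (sc (δ / 2) K) (fun y => f y - f x) x = -f x := by
    rw [cv_sub (hK.tf.sc (by positivity)) hf continuous_const, h2,
      cv_const (by rw [integral_sc _ (by positivity), hK.one])]
    ring
  have h4 : |cv (sc (δ / 2) K) (fun y => f y - f x) x| ≤ |f x| / 2 := by
    rw [cv_sc_eq (by positivity), ← Real.norm_eq_abs]
    have hint : Integrable (fun y => K y * (|f x| / 2)) := hK.tf.integrable.mul_const _
    refine (norm_integral_le_of_norm_le hint (Eventually.of_forall fun y => ?_)).trans ?_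
    · by_cases hy : 1 < ‖y‖
      · simp [hK.supp y hy]
      · push Not at hy
        rw [norm_mul, Real.norm_of_nonneg (hK.nonneg y)]
        refine mul_le_mul_of_nonneg_left ?_ (hK.nonneg y)
        have h5 := h1 (x + (δ / 2) • y) (by
          rw [dist_eq_norm, add_sub_cancel_left, norm_smul, Real.norm_of_nonneg (by positivity)]
          nlinarith)
        rw [Real.dist_eq] at h5
        exact h5.le
    · rw [integral_mul_const, hK.one, one_mul]
  rw [h3, abs_neg] at h4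
  have : 0 < |f x| := abs_pos.2 hne
  linarith

end Pool.Agent.Q64.HS
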