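import Pool.Agent.Q64.HS.Good

/-! # The contraction estimate -/

namespace Pool.Agent.Q64.HS

open MeasureTheory Set Filter Topology
open scoped ContDiff Convolution

variable {n : ℕ} {v G : E n → ℝ → ℝ} {ρ : E n → ℝ}

lemma Good.near (H : Good v G ρ) {δ : ℝ} (hG : ∀ x t, 0 ≤ t → t ≤ 7 → |G x t| ≤ δ) (x : E n)
    {t : ℝ} (h0 : 0 ≤ t) (h7 : t ≤ 7) : |v x t - ρ x * Real.sin t| ≤ 14 * δ := by
  have hδ : 0 ≤ δ := (abs_nonneg _).trans (hG x 0 le_rfl (by norm_num))
  have h1 := H.I1 x h0 h7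
  have h2 := H.I2 x h0 h7
  have h3 : |∫ s in (0:ℝ)..t, G x s * Real.sin s| ≤ δ * t := integral_le_of_bound h0 fun s hs => by
    rw [abs_mul]
    calc |G x s| * |Real.sin s| ≤ δ * 1 :=
          mul_le_mul (hG x s hs.1 (hs.2.trans h7)) (Real.abs_sin_le_one s) (abs_nonneg _) hδ
      _ = δ := mul_one _
  have h4 : |∫ s in (0:ℝ)..t, G x s * Real.cos s| ≤ δ * t := integral_le_of_bound h0 fun s hs => by
    rw [abs_mul]
    calc |G x s| * |Real.cos s| ≤ δ * 1 :=
          mul_le_mul (hG x s hs.1 (hs.2.trans h7)) (Real.abs_cos_le_one s) (abs_nonneg _) hδ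
      _ = δ := mul_one _
  set A := ∫ s in (0:ℝ)..t, G x s * Real.sin s
  set B := ∫ s in (0:ℝ)..t, G x s * Real.cos s
  have h5 : v x t - ρ x * Real.sin t = Real.sin t * B - Real.cos t * A := by
    have h6 := Real.sin_sq_add_cos_sq t
    have h7 : v x t = (vt v G ρ x t * Real.cos t + v x t * Real.sin t) * Real.sin t
        - (vt v G ρ x t * Real.sin t - v x t * Real.cos t) * Real.cos t := by
      linear_combination (-v x t) * h6
    rw [h1, h2] at h7
    linear_combination h7
  rw [h5]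
  have h6 : δ * t ≤ 7 * δ := by nlinarith
  calc |Real.sin t * B - Real.cos t * A| ≤ |Real.sin t * B| + |Real.cos t * A| := abs_sub _ _
    _ = |Real.sin t| * |B| + |Real.cos t| * |A| := by rw [abs_mul, abs_mul]
    _ ≤ 1 * (7 * δ) + 1 * (7 * δ) := by
        gcongr
        · exact Real.abs_sin_le_one t
        · exact h4.trans h6
        · exact Real.abs_cos_le_one t
        · exact h3.trans h6
    _ = 14 * δ := by ring

lemma sin_sq_int : ∫ t in (0:ℝ)..(2 * Real.pi), Real.sin t ^ 2 = Real.pi := by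
  rw [integral_sin_sq]; simp

theorem Good.step (H0 : Good v G ρ) {φ : E n → ℝ} (hφ : Avg φ) {M : ℝ}
    (hM : ∀ x t, 0 ≤ t → t ≤ 7 → |v x t| ≤ M) :
    (∀ x, cv φ ρ x ≤ 63 * ((∫ y, |lap φ y|) * M)) ∧
    ∀ x t, 0 ≤ t → t ≤ 7 → |av φ v x t| ≤ 77 * ((∫ y, |lap φ y|) * M) := by
  have hM0 : 0 ≤ M := (abs_nonneg _).trans (hM 0 0 le_rfl (by norm_num))
  set δ : ℝ := (∫ y, |lap φ y|) * M with hδ
  have hδ0 : 0 ≤ δ := mul_nonneg (integral_nonneg fun y => abs_nonneg _) hM0
  have H := H0.avg hφ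
  set v1 := av φ v with hv1
  set G1 := av φ G with hG1
  set ρ1 := cv φ ρ with hρ1
  have hG : ∀ x t, 0 ≤ t → t ≤ 7 → |G1 x t| ≤ δ := by
    intro x t h0 h7
    have : G1 x t = -cv (lap φ) (fun y => v y t) x := H0.weak φ hφ.tf t x
    rw [this, abs_neg]
    exact cv_bound hφ.tf.lap (fun y => hM y t h0 h7) x
  have hnear := fun x t (h0 : 0 ≤ t) (h7 : t ≤ 7) => H.near hG x h0 h7
  have hρ0 := H.rho_nonneg
  -- the first Fourier coefficient
  set b0 : E n → ℝ := fun x => ∫ t in (0:ℝ)..(2 * Real.pi), v x t * Real.sin t with hb0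
  have hgc : Continuous fun p : E n × ℝ => v p.1 p.2 * Real.sin p.2 := by
    have := H0.cv'; fun_prop
  have hb0c : Continuous b0 :=
    intervalIntegral.continuous_parametric_intervalIntegral_of_continuous' hgc _ _
  have hb : ∀ x, cv φ b0 x = ∫ t in (0:ℝ)..(2 * Real.pi), v1 x t * Real.sin t := by
    intro x
    rw [hb0, cv_time hφ.tf (g := fun y t => v y t * Real.sin t) hgc]
    refine intervalIntegral.integral_congr fun t _ => ?_
    show cv φ (fun y => v y t * Real.sin t) x = av φ v x t * Real.sin t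
    have : (fun y => v y t * Real.sin t) = fun y => Real.sin t * v y t := by ext y; ring
    rw [this, cv_smul, av]; ring
  have hz : ∀ x, cv (lap φ) b0 x = v1 x (2 * Real.pi) := by
    intro x
    have h1 := H.I1 x two_pi_nonneg two_pi_le
    rw [Real.sin_two_pi, Real.cos_two_pi, mul_zero, mul_one, zero_sub] at h1
    rw [hb0, cv_time hφ.tf.lap (g := fun y t => v y t * Real.sin t) hgc]
    have h2 : ∫ t in (0:ℝ)..(2 * Real.pi), cv (lap φ) (fun y => v y t * Real.sin t) x
        = ∫ t in (0:ℝ)..(2 * Real.pi), -(G1 x t * Real.sin t) := by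
      refine intervalIntegral.integral_congr fun t _ => ?_
      have h3 : (fun y => v y t * Real.sin t) = fun y => Real.sin t * v y t := by ext y; ring
      have h4 : G1 x t = -cv (lap φ) (fun y => v y t) x := H0.weak φ hφ.tf t x
      rw [h3, cv_smul, h4]; ring
    rw [h2, intervalIntegral.integral_neg]
    linarith
  have hv1c := H.cv'
  have hbρ : ∀ x, |cv φ b0 x - Real.pi * ρ1 x| ≤ 88.2 * δ := by
    intro x
    have hc : Continuous (v1 x) := cont_slice' H.cv' x
    have h1 : cv φ b0 x - Real.pi * ρ1 x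
        = ∫ t in (0:ℝ)..(2 * Real.pi), (v1 x t - ρ1 x * Real.sin t) * Real.sin t := by
      have h2 : ∫ t in (0:ℝ)..(2 * Real.pi), (v1 x t - ρ1 x * Real.sin t) * Real.sin t
          = ∫ t in (0:ℝ)..(2 * Real.pi), (v1 x t * Real.sin t - ρ1 x * Real.sin t ^ 2) :=
        intervalIntegral.integral_congr fun t _ => by ring
      have i1 : IntervalIntegrable (fun t => v1 x t * Real.sin t) volume 0 (2 * Real.pi) :=
        (hc.mul Real.continuous_sin).intervalIntegrable _ _
      have i2 : IntervalIntegrable (fun t => ρ1 x * Real.sin t ^ 2) volume 0 (2 * Real.pi) :=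
        (continuous_const.mul (Real.continuous_sin.pow 2)).intervalIntegrable _ _
      rw [h2, intervalIntegral.integral_sub i1 i2,
        intervalIntegral.integral_const_mul, sin_sq_int, hb]
      ring
    rw [h1]
    refine (integral_le_of_bound two_pi_nonneg (δ := 14 * δ) fun s hs => ?_).trans ?_
    · rw [abs_mul]
      calc |v1 x s - ρ1 x * Real.sin s| * |Real.sin s| ≤ 14 * δ * 1 :=
            mul_le_mul (hnear x s hs.1 (hs.2.trans two_pi_le)) (Real.abs_sin_le_one s)
              (abs_nonneg _) (by positivity)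
        _ = 14 * δ := mul_one _
    · nlinarith [two_pi_lt]
  have hbC : ∀ x, cv φ b0 x ≤ (∫ y, |φ y|) * (M * (2 * Real.pi)) := by
    intro x
    refine (le_abs_self _).trans (cv_bound hφ.tf (fun y => ?_) x)
    refine integral_le_of_bound two_pi_nonneg fun s hs => ?_
    rw [abs_mul]
    calc |v y s| * |Real.sin s| ≤ M * 1 :=
          mul_le_mul (hM y s hs.1 (hs.2.trans two_pi_le)) (Real.abs_sin_le_one s)
            (abs_nonneg _) hM0
      _ = M := mul_one _
  -- main bound of b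
  have hbmax : ∀ x1, cv φ b0 x1 ≤ 108.1 * δ := by
    intro x1
    refine le_of_forall_pos_le_add fun κ hκ => ?_
    obtain ⟨ε0, hε0, hvt⟩ := H.vt_small (δ := κ / 5) (by positivity)
    obtain ⟨x, hx1, hx2⟩ := omori_cv hφ.tf hb0c hbC x1 (ε := min ε0 (κ / 5)) (by positivity)
    rw [hz] at hx2
    have h1 := hvt x (hx2.trans (min_le_left _ _))
    have h2 := H.I2 x two_pi_nonneg two_pi_le
    rw [Real.sin_two_pi, Real.cos_two_pi, mul_zero, mul_one, add_zero] at h2
    have h3 : |∫ s in (0:ℝ)..(2 * Real.pi), G1 x s * Real.cos s| ≤ δ * (2 * Real.pi) :=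
      integral_le_of_bound two_pi_nonneg fun s hs => by
        rw [abs_mul]
        calc |G1 x s| * |Real.cos s| ≤ δ * 1 :=
              mul_le_mul (hG x s hs.1 (hs.2.trans two_pi_le)) (Real.abs_cos_le_one s)
                (abs_nonneg _) hδ0
          _ = δ := mul_one _
    have h4 : δ * (2 * Real.pi) ≤ 6.3 * δ := by nlinarith [two_pi_lt]
    have h5 : ρ1 x ≤ κ / 5 + 6.3 * δ := by
      have h6 := (abs_le.1 h1).2
      have h7 := (abs_le.1 h3).1
      linarith
    have h6 := (abs_le.1 (hbρ x)).2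
    have h7 : Real.pi * ρ1 x ≤ 3.15 * (κ / 5 + 6.3 * δ) := by
      have := Real.pi_lt_d2
      have h8 := hρ0 x
      nlinarith
    have h8 : min ε0 (κ / 5) ≤ κ / 5 := min_le_right _ _
    nlinarith
  have hρle : ∀ x, ρ1 x ≤ 63 * δ := by
    intro x
    have h1 := hbmax x
    have h2 := (abs_le.1 (hbρ x)).1
    have h3 : Real.pi * ρ1 x ≤ 196.3 * δ := by linarith
    have h4 := Real.pi_gt_d2
    by_contra hcon
    push Not at hcon
    have h5 : 3.14 * (63 * δ) < Real.pi * ρ1 x ∨ δ = 0 := by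
      rcases hδ0.eq_or_lt with h | h
      · right; exact h.symm
      · left; nlinarith
    rcases h5 with h5 | h5
    · nlinarith
    · rw [h5] at h3 hcon
      nlinarith
  refine ⟨hρle, fun x t h0 h7 => ?_⟩
  have h1 := hnear x t h0 h7
  have h2 : |ρ1 x * Real.sin t| ≤ 63 * δ := by
    rw [abs_mul, abs_of_nonneg (hρ0 x)]
    calc ρ1 x * |Real.sin t| ≤ ρ1 x * 1 :=
          mul_le_mul_of_nonneg_left (Real.abs_sin_le_one t) (hρ0 x)
      _ ≤ 63 * δ := by rw [mul_one]; exact hρle x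
  have h3 : v1 x t = (v1 x t - ρ1 x * Real.sin t) + ρ1 x * Real.sin t := by ring
  calc |v1 x t| = |(v1 x t - ρ1 x * Real.sin t) + ρ1 x * Real.sin t| := by rw [← h3]
    _ ≤ _ := abs_add_le _ _
    _ ≤ 77 * δ := by linarith

end Pool.Agent.Q64.HS
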